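import Pool.Agent.MP_2a1f0e_nt.GM3.Defs
import Pool.Agent.MP_2a1f0e_nt.GM2.BB
import Pool.Agent.MP_2a1f0e_nt.GM.KOne

set_option autoImplicit false

open Finset

namespace Pool.Agent.MP_2a1f0e_nt.GM3

open GM GM2

lemma split_BB3 {a b s t p p' g lam c : ℝ} (ha : 0 ≤ a) (hb : 0 ≤ b) (ht : 0 ≤ t)
    (hp : 0 ≤ p) (hp' : 0 ≤ p') (hg : 0 ≤ g) (hc : g ≤ c) :
    (if lam < s * t then a * b * (s * t) * g else 0) ≤
      a * b * (if lam < s * t ∧ ¬(s ≤ p ∧ t ≤ p') then s * t * g else 0) +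
        c * (a * b * (p * p')) := by
  have h2 : 0 ≤ c := hg.trans hc
  have h4 : 0 ≤ c * (a * b * (p * p')) := by positivity
  by_cases h5 : lam < s * t
  · rw [if_pos h5]
    by_cases h6 : s ≤ p ∧ t ≤ p'
    · rw [if_neg fun h => h.2 h6, mul_zero, zero_add, mul_comm c]
      have := h6.1
      have := h6.2
      gcongr
    · rw [if_pos ⟨h5, h6⟩]
      linarith
  · rw [if_neg h5, if_neg fun h => h5 h.1]
    linarith

lemma wsq_BB3 {s t p p' g c lam m m' : ℝ} {A A' B : Prop} [Decidable A] [Decidable A']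
    [Decidable B] (hs : 0 ≤ s) (ht : 0 ≤ t) (hm : 0 ≤ m) (hm' : 0 ≤ m')
    (hg : g ^ 2 * (1 + m + m') ≤ c)
    (h : lam < s * t → (s ≤ p ∧ t ≤ p') ∨ (s ≤ p ∧ A') ∨ (A ∧ t ≤ p') ∨ B) :
    (if lam < s * t ∧ ¬(s ≤ p ∧ t ≤ p') then s * t * g else 0) ^ 2 ≤
      c * (p ^ 2 * (if A' then t ^ 2 / (1 + m') else 0) +
        (if A then s ^ 2 / (1 + m) else 0) * p' ^ 2 +
        if lam < s * t ∧ B then (s * t) ^ 2 / (1 + m + m') else 0) := by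
  have hc : 0 ≤ c := le_trans (by positivity) hg
  have h1 : 0 ≤ p ^ 2 * (if A' then t ^ 2 / (1 + m') else 0) := by split_ifs <;> positivity
  have h2 : 0 ≤ (if A then s ^ 2 / (1 + m) else 0) * p' ^ 2 := by split_ifs <;> positivity
  have h3 : 0 ≤ if lam < s * t ∧ B then (s * t) ^ 2 / (1 + m + m') else 0 := by
    split_ifs <;> positivity
  refine (wsq_BB (by positivity) hg).trans (mul_le_mul_of_nonneg_left ?_ hc)
  by_cases h4 : lam < s * t ∧ ¬(s ≤ p ∧ t ≤ p')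
  · rw [if_pos h4]
    rcases h h4.1 with h5 | ⟨h5, h6⟩ | ⟨h6, h5⟩ | h5
    · exact absurd h5 h4.2
    · rw [if_pos h6]
      have : (s * t) ^ 2 / (1 + m + m') ≤ p ^ 2 * (t ^ 2 / (1 + m')) := by
        rw [mul_pow, mul_div_assoc]
        gcongr
        linarith
      linarith
    · rw [if_pos h6]
      have : (s * t) ^ 2 / (1 + m + m') ≤ s ^ 2 / (1 + m) * p' ^ 2 := by
        rw [mul_pow, mul_div_right_comm, add_right_comm]
        gcongr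
        linarith
      linarith
    · rw [if_pos (And.intro h4.1 h5)]
      linarith
  · rw [if_neg h4]
    linarith

theorem bb3_stmt (hB : BilStmt) (h2 : GL2Stmt) (hG : GamStmt) (hK : KKStmt) (hN : Near3Stmt)
    (hM : Mid3Stmt) (hF : Far3Stmt) : BB3Stmt := by
  obtain ⟨C2, hC2, h2⟩ := h2
  obtain ⟨CG, hCG, hG⟩ := hG
  obtain ⟨CK, -, hK⟩ := hK
  obtain ⟨Cn, hCn, hN⟩ := hN
  obtain ⟨CM, hCM, hM⟩ := hM
  obtain ⟨CF, hCF, hF⟩ := hF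
  have hCn0 : 0 < Cn := by linarith
  obtain ⟨E, hE0, hE⟩ : ∃ E : ℝ, 0 ≤ E ∧ E ^ 2 = CG * (12 * CM + CF) :=
    ⟨_, Real.sqrt_nonneg _, Real.sq_sqrt (by positivity)⟩
  refine ⟨4 * Cn * C2 + E * Cn + (CG + 1) * (36 * Cn ^ 2), by positivity, ?_⟩
  intro y Δ a b κ σ z₀ z₁ Y G M₁ M₂ R X I u hy hM₁ hM₁' hM₂ hM₂' hR hX hD hL hY hGG
  have hΔ : 1 ≤ Δ := hD.1
  have hy0 : 0 < y := by linarith
  have hy10 : 1 ≤ y ^ 49 := one_le_pow₀ hy
  have hlam : y ^ 49 ≤ Cn * y ^ 49 := le_mul_of_one_le_left (by positivity) hCn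
  have hG0 : 0 ≤ G := (sum_nonneg fun _ _ => sq_nonneg _).trans (hGG 0)
  have hY0 : 0 ≤ Y := (sum_nonneg fun _ _ => N2_nonneg _ _).trans hY
  have h12 : 0 ≤ (4 * Cn * C2 + E * Cn) * (y ^ 60 * G) :=
    mul_nonneg (by positivity) (mul_nonneg (pow_nonneg hy0.le _) hG0)
  have h13 : 0 ≤ (CG + 1) * (36 * Cn ^ 2) * (Δ ^ 7 * y ^ 49 * Y) := by positivity
  have hJ : ((Nat.log 2 X + 1 : ℕ) : ℝ) + 1 ≤ 2 * Δ ^ 7 := by
    have := DivB_log hD le_rfl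
    have : Δ ≤ Δ ^ 7 := le_self_pow₀ hΔ (by norm_num)
    push_cast
    linarith
  have hS : (3 * y ^ 30) ^ 2 ≤ 2 ^ (Nat.log 2 X + 1) * (Cn * y ^ 49) := by
    have := pow_J_BB (one_le_pow₀ hy : 1 ≤ y ^ 5) (X := X) (by rwa [← pow_mul]) (hy10.trans hlam)
    rwa [← pow_mul] at this
  have hgam : ∀ r q : ℝ, ‖Gam κ σ z₀ z₁ r q‖ ≤ CG + 1 := fun r q => by
    have h1 := hG a b κ σ z₀ z₁ hL r q
    have h3 : ‖Gam κ σ z₀ z₁ r q‖ ^ 2 ≤ ‖Gam κ σ z₀ z₁ r q‖ ^ 2 * (1 + |r| + |q|) :=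
      le_mul_of_one_le_right (sq_nonneg _) (by linarith [abs_nonneg r, abs_nonneg q])
    nlinarith [sq_nonneg (‖Gam κ σ z₀ z₁ r q‖ - 1)]
  obtain ⟨p, hp⟩ : ∃ p : ℤ → ℝ, ∀ r, p r = Cn * y ^ 30 * kp r := ⟨_, fun _ => rfl⟩
  have p0 : ∀ r, 0 ≤ p r := fun r => by
    have := kp_pos r
    rw [hp]
    positivity
  have p1 : ∑ r ∈ Io R, p r ≤ Cn * y ^ 30 * 6 := by
    simp only [hp]
    rw [← mul_sum]
    exact mul_le_mul_of_nonneg_left (sum_kp_KOne _) (by positivity)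
  have p2 : ∑ r ∈ Io R, p r ^ 2 ≤ Cn * y ^ 30 * (Cn * y ^ 30 * 6) := by
    refine le_trans ?_ (mul_le_mul_of_nonneg_left p1 (by positivity))
    rw [mul_sum]
    refine sum_le_sum fun r _ => ?_
    rw [sq]
    refine mul_le_mul_of_nonneg_right ?_ (p0 r)
    rw [hp]
    exact mul_le_of_le_one_right (by positivity) (kp_le_one _)
  have p3 : ∀ (M : ℕ) (r : ℤ) (v : ℝ), (M : ℝ) ≤ y ^ 30 → kp v = kp r → Pk Cn M v →
      ‖KK M v‖ ≤ p r := fun M r v h e h' => by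
    have := kp_pos r
    rw [hp, mul_assoc]
    refine le_trans h' ?_
    rw [e]
    gcongr
  have hW : ∑ r ∈ Io R, ∑ q ∈ Io R,
      (if Cn * y ^ 49 < ‖KK M₁ (-(r : ℝ))‖ * ‖KK M₂ q‖ ∧
        ¬(‖KK M₁ (-(r : ℝ))‖ ≤ p r ∧ ‖KK M₂ q‖ ≤ p q) then
        ‖KK M₁ (-(r : ℝ))‖ * ‖KK M₂ q‖ * ‖Gam κ σ z₀ z₁ r q‖ else 0) ^ 2 ≤
      (E * Δ ^ 7 * (Cn * y ^ 49)) ^ 2 := by
    have h1 := hF y (Cn * y ^ 49) Δ M₁ M₂ R X hy hM₁ hM₁' hM₂ hM₂' hR hX hD hlam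
    have h3 := mul_le_mul p2 (hM y Δ M₂ R X hy hM₂ hM₂' hR hX hD).1
      (sum_nonneg fun _ _ => by split_ifs <;> positivity) (by positivity)
    have h4 := mul_le_mul (hM y Δ M₁ R X hy hM₁ hM₁' hR hX hD).2 p2
      (sum_nonneg fun _ _ => sq_nonneg _) (by positivity)
    rw [sum_mul_sum] at h3 h4
    have h5 := mul_le_mul_of_nonneg_left (add_le_add (add_le_add h3 h4) h1) hCG.le
    rw [← sum_add_distrib, ← sum_add_distrib, mul_sum] at h5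
    refine le_trans (sum_le_sum fun r _ => ?_) (h5.trans ?_)
    · rw [← sum_add_distrib, ← sum_add_distrib, mul_sum]
      refine sum_le_sum fun q _ => wsq_BB3 (norm_nonneg _) (norm_nonneg _) (abs_nonneg _)
        (abs_nonneg _) (hG a b κ σ z₀ z₁ hL r q) fun h => ?_
      have e1 := p3 M₁ r _ hM₁' (kp_neg r)
      have e2 := p3 M₂ q _ hM₂' rfl
      exact (hN y hy M₁ M₂ hM₁ hM₁' hM₂ hM₂' r q h).imp (And.imp e1 e2)
        (Or.imp (And.imp_left e1) (Or.imp_left (And.imp_right e2)))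
    · have h6 : Δ ^ 13 ≤ Δ ^ 14 := pow_le_pow_right₀ hΔ (by norm_num)
      have h7 : Δ ^ 7 ≤ Δ ^ 14 := pow_le_pow_right₀ hΔ (by norm_num)
      have h8 : y ^ 90 ≤ y ^ 98 := pow_le_pow_right₀ hy (by norm_num)
      calc _ = CG * Cn ^ 2 * (12 * CM * (Δ ^ 7 * y ^ 90) + CF * (Δ ^ 13 * y ^ 98)) := by ring
        _ ≤ CG * Cn ^ 2 * (12 * CM * (Δ ^ 14 * y ^ 98) + CF * (Δ ^ 14 * y ^ 98)) := by gcongr
        _ = E ^ 2 * (Δ ^ 7 * (Cn * y ^ 49)) ^ 2 := by rw [hE]; ring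
        _ = _ := by ring
  have key : ∀ i ∈ I, ‖Bf R M₁ M₂ κ σ z₀ z₁ (u i)‖ ≤
      (4 * Cn * C2 + E * Cn) * (Δ ^ 7 * y ^ 49) * N2 (Io R) (u i) +
      (CG + 1) * ∑ r ∈ Io R, ∑ q ∈ Io R, ‖u i r‖ * ‖u i q‖ * (p r * p q) := by
    intro i _
    have h1 := hB (Io R) (u i) (fun ρ => (starRingEnd ℂ) (u i ρ)) (fun ρ => KK M₁ (-(ρ : ℝ)))
      (fun ρ => KK M₂ ρ) (fun ρ₁ ρ₂ => Gam κ σ z₀ z₁ ρ₁ ρ₂) C2 (Cn * y ^ 49) (3 * y ^ 30)
      (Nat.log 2 X + 1) hC2.le (by positivity) (by positivity)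
      (h2 a b κ σ z₀ z₁ hL (Io R))
      (fun ρ _ => (hK M₁ hM₁ _).2.trans (by linarith))
      (fun ρ _ => (hK M₂ hM₂ _).2.trans (by linarith)) hS
    have hn := N2_nonneg (Io R) (u i)
    rw [N2_conj_BB, mul_assoc _ (√(N2 (Io R) (u i))), Real.mul_self_sqrt hn] at h1
    simp only [Complex.norm_conj] at h1
    have h3 := far_BB (Io R) (fun r => ‖u i r‖) _ _ (by positivity) hW
    have h4 := sum_le_sum (s := Io R) fun r _ => sum_le_sum (s := Io R) fun q _ =>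
      split_BB3 (lam := Cn * y ^ 49) (s := ‖KK M₁ (-(r : ℝ))‖) (norm_nonneg (u i r))
        (norm_nonneg (u i q))
        (norm_nonneg (KK M₂ q)) (p0 r) (p0 q) (norm_nonneg _)
        (hgam r q)
    simp only [sum_add_distrib, ← mul_sum _ _ (CG + 1)] at h4
    have h5 : 2 * (Cn * y ^ 49) * (((Nat.log 2 X + 1 : ℕ) : ℝ) + 1) * C2 * N2 (Io R) (u i) ≤
        2 * (Cn * y ^ 49) * (2 * Δ ^ 7) * C2 * N2 (Io R) (u i) := by gcongr
    have h7 : ‖Bf R M₁ M₂ κ σ z₀ z₁ (u i)‖ ≤ _ := h1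
    change _ ≤ N2 (Io R) (u i) * _ at h3
    linarith
  have hnear := near_BB I (Io R) (fun i r => ‖u i r‖) p p (fun _ => True) G p0 p0 hGG
  simp only [and_self, if_true, filter_true] at hnear
  have h9 := hnear.trans (mul_le_mul_of_nonneg_left
    (mul_le_mul p1 p1 (sum_nonneg fun r _ => p0 r) (by positivity)) hG0)
  refine (sum_le_sum key).trans ?_
  rw [sum_add_distrib, ← mul_sum, ← mul_sum]
  have h10 := mul_le_mul_of_nonneg_left h9 (show 0 ≤ CG + 1 by positivity)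
  have h11 := mul_le_mul_of_nonneg_left hY
    (show 0 ≤ (4 * Cn * C2 + E * Cn) * (Δ ^ 7 * y ^ 49) by positivity)
  refine (add_le_add h11 h10).trans ?_
  linarith

end Pool.Agent.MP_2a1f0e_nt.GM3
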