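import Pool.Agent.MP_2a1f0e_nt.GM3.Defs

set_option autoImplicit false

open Finset

namespace Pool.Agent.MP_2a1f0e_nt.GM3

open GM GM2

lemma norm_FT_Dec3 (s : Finset ℤ) (f : ℤ → ℝ) (v : ℝ) :
    ∃ α : ℝ, ‖FT s f v‖ = ∑ t ∈ s, f t * Real.cos ((t : ℝ) * Real.log v + α) := by
  obtain ⟨α, hα⟩ : ∃ α : ℝ, FT s f v * Complex.exp (α * Complex.I) = (‖FT s f v‖ : ℝ) := by
    refine ⟨-Complex.arg (FT s f v), ?_⟩
    conv_lhs => rw [← Complex.norm_mul_exp_arg_mul_I (FT s f v), mul_assoc]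
    rw [Complex.norm_mul_exp_arg_mul_I, ← Complex.exp_add]
    simp
  refine ⟨α, ?_⟩
  rw [← Complex.ofReal_re ‖FT s f v‖, ← hα, FT, sum_mul, Complex.re_sum]
  refine sum_congr rfl fun t _ => ?_
  rw [mul_assoc, Complex.re_ofReal_mul, pw, ← Complex.exp_add, ← Complex.exp_ofReal_mul_I_re]
  congr 3
  push_cast
  ring

theorem dec3_stmt (hK : KktStmt) (hD : DirStmt) (hN : NOneStmt) : Dec3Stmt := by
  obtain ⟨CD, hCD, hD⟩ := hD
  obtain ⟨CN, hCN, hN⟩ := hN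
  refine ⟨1 + CD + CN, by linarith, fun L g A μ X hL hA hμ hX => ?_⟩
  obtain ⟨f, e, h, h1, -, h3, h4, h5, h6⟩ := hK (Io L) g A μ hA hμ
  have p1 : 0 ≤ ∑ t ∈ Io L, f t ^ 2 := sum_nonneg fun _ _ => sq_nonneg _
  have p2 : 0 ≤ A * N1 (Io L) e := mul_nonneg hA.le (N1_nonneg _ _)
  have p3 : 0 ≤ μ * ∑ t ∈ Io L, |h t| := mul_nonneg hμ.le (sum_nonneg fun _ _ => abs_nonneg _)
  refine ⟨f, h, h1, by linarith, fun v => ?_, fun t => ?_, ?_, ?_⟩
  · obtain ⟨α, hα⟩ := norm_FT_Dec3 (Io L) f v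
    rw [hα]
    refine (h5 _).trans ((mul_le_mul_of_nonneg_left (hD L hL _ α) hA.le).trans ?_)
    rw [mul_comm A]
    gcongr
    linarith
  · by_cases ht : t ∈ Io L
    · exact h6 t ht
    · rw [h1 t ht, abs_zero]
      exact hμ.le
  · rw [le_div_iff₀ hμ]
    linarith
  · have e1 : (fun v => ‖FT (Io L) (fun t => g t - f t - h t) v‖) = fun v => ‖FT (Io L) e v‖ := by
      funext v
      refine congrArg _ (sum_congr rfl fun t ht => ?_)
      beta_reduce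
      rw [h3 t ht, show f t + e t + h t - f t - h t = e t by ring]
    have e2 : N1 (Io L) e ≤ X / A := by
      rw [le_div_iff₀ hA]
      linarith
    rw [e1]
    exact (hN _ _).trans (mul_le_mul (by linarith) e2 (N1_nonneg _ _) (by positivity))

end Pool.Agent.MP_2a1f0e_nt.GM3
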