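import Pool.Agent.MP_2a1f0e_nt.GM2.Defs

set_option autoImplicit false

open Finset

namespace Pool.Agent.MP_2a1f0e_nt.GM3

open GM GM2

/-- `L1` norm of `FT` over one period in the logarithmic variable -/
noncomputable def N1 (s : Finset ℤ) (g : ℤ → ℝ) : ℝ :=
  ∫ u in (-Real.pi)..Real.pi, ‖FT s g (Real.exp u)‖

/-- the right side of the improved cubic bound -/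
noncomputable def W3 (N M : ℕ) (Δ B X y : ℝ) : ℝ :=
  Δ ^ 10 * y ^ 57 * (X * √X) + M * Δ * B * X + (M : ℝ) ^ 3 * B * X / N +
    M * Δ * B * √(R2 N M Δ) * (B + y ^ 3 * √X) * √X + (M : ℝ) ^ 2 * Δ * B ^ 3 * R2 N M Δ

/-- peak dominated frequency -/
def Pk (C : ℝ) (M : ℕ) (u : ℝ) : Prop := ‖KK M u‖ ≤ C * (M * kp u)

/-- splitting by convex minimisation -/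
def KktStmt : Prop := ∀ (s : Finset ℤ) (g : ℤ → ℝ) (A μ : ℝ), 0 < A → 0 < μ →
  ∃ f e h : ℤ → ℝ, (∀ t, t ∉ s → f t = 0) ∧ (∀ t, t ∉ s → h t = 0) ∧
    (∀ t ∈ s, g t = f t + e t + h t) ∧
    ∑ t ∈ s, f t ^ 2 + 2 * A * N1 s e + 2 * μ * ∑ t ∈ s, |h t| ≤ ∑ t ∈ s, g t ^ 2 ∧
    (∀ d : ℤ → ℝ, ∑ t ∈ s, f t * d t ≤ A * N1 s d) ∧ ∀ t ∈ s, |f t| ≤ μ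

/-- `L1` norm of a shifted Dirichlet kernel -/
def DirStmt : Prop := ∃ C : ℝ, 0 < C ∧ ∀ L : ℕ, 1 ≤ L → ∀ x α : ℝ,
  N1 (Io L) (fun t => Real.cos ((t : ℝ) * x + α)) ≤ C * ((Nat.log 2 L : ℝ) + 1)

def NOneStmt : Prop := ∃ C : ℝ, 0 < C ∧ ∀ (s : Finset ℤ) (g : ℤ → ℝ),
  II (fun v => ‖FT s g v‖) ≤ C * N1 s g

def Dec3Stmt : Prop := ∃ C : ℝ, 1 ≤ C ∧ ∀ (L : ℕ) (g : ℤ → ℝ) (A μ X : ℝ), 1 ≤ L → 0 < A →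
  0 < μ → ∑ t ∈ Io L, g t ^ 2 ≤ X → ∃ f h : ℤ → ℝ, Sup L f ∧ ∑ t ∈ Io L, f t ^ 2 ≤ X ∧
    (∀ v, ‖FT (Io L) f v‖ ≤ C * ((Nat.log 2 L : ℝ) + 1) * A) ∧ (∀ t, |f t| ≤ μ) ∧
    ∑ t ∈ Io L, |h t| ≤ X / μ ∧
    II (fun v => ‖FT (Io L) (fun t => g t - f t - h t) v‖) ≤ C * (X / A)

def KsupStmt : Prop := ∃ C : ℝ, 0 < C ∧ ∀ N M : ℕ, 1 ≤ N → ∀ u : ℤ,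
  ‖Kb N M (u : ℝ)‖ ^ 2 ≤ C * (N * M)

def HOneStmt : Prop := ∃ C : ℝ, 0 < C ∧ ∀ (N M : ℕ) (Δ : ℝ), 1 ≤ N → DivB ((3 * N + 1) * M) Δ →
  ∀ (s : Finset ℤ) (a : ℤ → ℝ) (t : ℤ),
    ∑ n ∈ Icc 1 (3 * N), Wt ((n : ℝ) / N) *
      ‖∑ b ∈ s, (a b : ℂ) * Kb N M ((t : ℝ) - b) * pw (n : ℝ) b‖ ^ 2 ≤
      C * (N : ℝ) ^ 2 * M * Δ * ∑ b ∈ s, a b ^ 2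

/-- signed bilinear bound -/
def HStmt : Prop := ∃ C : ℝ, 0 < C ∧ ∀ (N M : ℕ) (Δ E X : ℝ) (s : Finset ℤ) (h a b : ℤ → ℝ),
  1 ≤ N → DivB ((3 * N + 1) * M) Δ → 0 ≤ E → HE N M s E → ∑ t ∈ s, a t ^ 2 ≤ X →
  ∑ t ∈ s, b t ^ 2 ≤ X →
  ‖Q33 N M s h a b‖ ≤ C * ((N : ℝ) ^ 2 * M * Δ + E * (N * M)) * (∑ t ∈ s, |h t|) * X

def Err3Stmt : Prop := ∃ C : ℝ, 0 < C ∧ ∀ (N M : ℕ) (Δ E A X E₁ H : ℝ) (s : Finset ℤ)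
  (g f h : ℤ → ℝ), 1 ≤ N → DivB ((3 * N + 1) * M) Δ → 0 ≤ E → HE N M s E → 0 ≤ A →
  ∑ t ∈ s, g t ^ 2 ≤ X → ∑ t ∈ s, f t ^ 2 ≤ X → (∀ v, ‖FT s g v‖ ≤ A) → (∀ v, ‖FT s f v‖ ≤ A) →
  II (fun v => ‖FT s (fun t => g t - f t - h t) v‖) ≤ E₁ → ∑ t ∈ s, |h t| ≤ H →
  ‖Q3 N M s g - Q3 N M s f‖ ≤
    C * ((N : ℝ) ^ 2 * ((M : ℝ) ^ 2 * E₁ * X + M * Δ * √(E₁ * (A + H)) * A * √X) +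
      ((N : ℝ) ^ 2 * M * Δ + E * (N * M)) * H * X)

/-- pointwise bound, almost square root of the frequency -/
def OscStmt : Prop := ∃ C : ℝ, 1 ≤ C ∧ ∀ M : ℕ, 1 ≤ M → ∀ (u : ℤ) (z : ℝ), 1 ≤ z →
  1 + |(u : ℝ)| ≤ z ^ 20 → ‖KK M (u : ℝ)‖ ≤ C * (M * kp u + z ^ 11)

def Near3Stmt : Prop := ∃ C : ℝ, 1 ≤ C ∧ ∀ y : ℝ, 1 ≤ y → ∀ M₁ M₂ : ℕ, 1 ≤ M₁ →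
  (M₁ : ℝ) ≤ y ^ 30 → 1 ≤ M₂ → (M₂ : ℝ) ≤ y ^ 30 → ∀ ρ₁ ρ₂ : ℤ,
    C * y ^ 49 < ‖KK M₁ (-(ρ₁ : ℝ))‖ * ‖KK M₂ ρ₂‖ →
    (Pk C M₁ (-(ρ₁ : ℝ)) ∧ Pk C M₂ ρ₂) ∨ (Pk C M₁ (-(ρ₁ : ℝ)) ∧ y ^ 30 ≤ |(ρ₂ : ℝ)|) ∨
      (y ^ 30 ≤ |(ρ₁ : ℝ)| ∧ Pk C M₂ ρ₂) ∨ y ^ 44 ≤ max |(ρ₁ : ℝ)| |(ρ₂ : ℝ)|

def Mid3Stmt : Prop := ∃ C : ℝ, 0 < C ∧ ∀ (y Δ : ℝ) (M R X : ℕ), 1 ≤ y → 1 ≤ M →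
  (M : ℝ) ≤ y ^ 30 → (R : ℝ) ≤ 8 * y ^ 180 → 729 * y ^ 180 ≤ X → DivB X Δ →
  ∑ ρ ∈ Io R, (if y ^ 30 ≤ |(ρ : ℝ)| then ‖KK M ρ‖ ^ 2 / (1 + |(ρ : ℝ)|) else 0) ≤
    C * Δ ^ 7 * y ^ 30 ∧
  ∑ ρ ∈ Io R, (if y ^ 30 ≤ |(ρ : ℝ)| then ‖KK M (-(ρ : ℝ))‖ ^ 2 / (1 + |(ρ : ℝ)|) else 0) ≤
    C * Δ ^ 7 * y ^ 30

def Far3Stmt : Prop := ∃ C : ℝ, 0 < C ∧ ∀ (y lam Δ : ℝ) (M₁ M₂ R X : ℕ), 1 ≤ y → 1 ≤ M₁ →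
  (M₁ : ℝ) ≤ y ^ 30 → 1 ≤ M₂ → (M₂ : ℝ) ≤ y ^ 30 → (R : ℝ) ≤ 8 * y ^ 180 → 729 * y ^ 180 ≤ X →
  DivB X Δ → y ^ 49 ≤ lam →
  ∑ ρ₁ ∈ Io R, ∑ ρ₂ ∈ Io R,
    (if lam < ‖KK M₁ (-(ρ₁ : ℝ))‖ * ‖KK M₂ ρ₂‖ ∧ y ^ 44 ≤ max |(ρ₁ : ℝ)| |(ρ₂ : ℝ)| then
      (‖KK M₁ (-(ρ₁ : ℝ))‖ * ‖KK M₂ ρ₂‖) ^ 2 / (1 + |(ρ₁ : ℝ)| + |(ρ₂ : ℝ)|) else 0) ≤
    C * Δ ^ 13 * lam ^ 2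

def BB3Stmt : Prop := ∃ C : ℝ, 0 < C ∧ ∀ (y Δ a b κ σ z₀ z₁ Y G : ℝ) (M₁ M₂ R X : ℕ)
  (I : Finset (ℕ × ℕ)) (u : ℕ × ℕ → ℤ → ℂ), 1 ≤ y → 1 ≤ M₁ →
  (M₁ : ℝ) ≤ y ^ 30 → 1 ≤ M₂ → (M₂ : ℝ) ≤ y ^ 30 → (R : ℝ) ≤ 8 * y ^ 180 → 729 * y ^ 180 ≤ X →
  DivB X Δ → Line a b κ σ z₀ z₁ → ∑ i ∈ I, N2 (Io R) (u i) ≤ Y →
  (∀ ρ, ∑ i ∈ I, ‖u i ρ‖ ^ 2 ≤ G) →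
  ∑ i ∈ I, ‖Bf R M₁ M₂ κ σ z₀ z₁ (u i)‖ ≤ C * (Δ ^ 7 * y ^ 49 * Y + y ^ 60 * G)

/-- bound along one segment -/
def Seg3Stmt : Prop := ∃ C : ℝ, 0 < C ∧ ∀ (y Δ X k a b κ σ z₀ z₁ : ℝ) (L M₁ M₂ M₃ Xd : ℕ)
  (S₁ S₂ S₃ : Finset ℕ) (γ : ℕ → ℂ) (g : ℤ → ℝ), 1 ≤ y → 1 ≤ k → Dy M₁ S₁ → Dy M₂ S₂ →
  Dy M₃ S₃ → (M₁ : ℝ) ≤ y ^ 30 → (M₂ : ℝ) ≤ y ^ 30 → (M₃ : ℝ) ≤ y ^ 30 → (L : ℝ) ≤ 4 * y ^ 180 →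
  729 * y ^ 180 ≤ Xd → DivB Xd Δ → Sup L g → ∑ t ∈ Io L, g t ^ 2 ≤ X →
  (∀ t, |g t| ≤ √X / y ^ 18) → (∀ v, ‖FT (Io L) g v‖ ≤ k * (y ^ 3 * √X)) →
  (∀ n ∈ S₃, ‖γ n‖ ≤ 1) → Line a b κ σ z₀ z₁ →
  (∫ z in z₀..z₁, Hf (Io L) g S₁ S₂ S₃ γ z (κ + σ * z)) ^ 2 ≤
    C * (M₁ * M₂ * (a * b)) * (k ^ 2 * Δ ^ 8 * y ^ 114 * X ^ 3)

def Blk3Stmt : Prop := ∃ C : ℝ, 0 < C ∧ ∀ (y Δ X k e₁ e₂ e₃ : ℝ) (N L M₁ M₂ M₃ Xd : ℕ)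
  (S₁ S₂ S₃ : Finset ℕ) (g : ℤ → ℝ), 1 ≤ y → 1 ≤ k → 1 ≤ N → Dy M₁ S₁ → Dy M₂ S₂ → Dy M₃ S₃ →
  M₁ ≤ M₃ → M₂ ≤ M₃ → (M₃ : ℝ) ≤ y ^ 30 → Sg e₁ → Sg e₂ → Sg e₃ → (L : ℝ) ≤ 4 * y ^ 180 →
  729 * y ^ 180 ≤ Xd → DivB Xd Δ → Sup L g → ∑ t ∈ Io L, g t ^ 2 ≤ X →
  (∀ t, |g t| ≤ √X / y ^ 18) → (∀ v, ‖FT (Io L) g v‖ ≤ k * (y ^ 3 * √X)) →
  ‖Qb N (Io L) g S₁ S₂ S₃ e₁ e₂ e₃‖ ≤ C * (k ^ 3 * Δ ^ 4 * y ^ 57 * (X * √X) / N)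

def Q4Stmt : Prop := ∃ C : ℝ, 0 < C ∧ ∀ (N M T Xd : ℕ) (Δ B X y E₀ : ℝ) (ν : ℤ → ℝ), 1 ≤ N →
  1 ≤ M → 1 ≤ T → 1 ≤ y → (M : ℝ) ≤ y ^ 30 → (T : ℝ) ≤ y ^ 180 → (3 * N + 1) * M ≤ Xd →
  729 * y ^ 180 ≤ Xd → DivB Xd Δ → 0 ≤ B → 1 ≤ E₀ → HE N M (Io (2 * (2 * T))) (E₀ * N) →
  (∀ v ∈ Set.Icc (1 / 9 : ℝ) (82 / 9), ‖FT (Io (2 * T)) ν v‖ ≤ B * (1 + rho N M v)) →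
  ∑ t ∈ Io (2 * T), ν t ^ 2 ≤ X →
  ‖Q3 N M (Io (2 * T)) ν‖ ≤ C * E₀ * (N : ℝ) ^ 2 * W3 N M Δ B X y

def Num3Stmt : Prop := ∀ δ C : ℝ, 0 < δ → 1 ≤ C → ∃ K : ℝ, 0 < K ∧
  ∀ (N T M : ℕ) (Δ B X y : ℝ), 1 ≤ N → N ≤ T → T ^ 23 ≤ N ^ 28 → 1 ≤ y → y ^ 30 = M →
    (M : ℝ) ≤ C * (N : ℝ) ^ δ * (T / N) → 1 ≤ Δ → Δ ≤ C * (N : ℝ) ^ δ → 0 ≤ B →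
    B ≤ C * (N : ℝ) ^ δ * (N : ℝ) ^ 2 → 0 ≤ X →
    X ^ 3 ≤ C * (N : ℝ) ^ 3 *
      ((N : ℝ) ^ 2 * W3 N M Δ B X y + (N : ℝ) ^ δ * (T * (N : ℝ) ^ 3) * X) →
    X ≤ K * (N : ℝ) ^ (8 * δ) * (√T * (N : ℝ) ^ 3)

def B4Stmt : Prop := ∀ ε : ℝ, 0 < ε → ∃ K : ℝ, 0 < K ∧ ∀ N T : ℕ, 1 ≤ N → N ≤ T →
  T ^ 23 ≤ N ^ 28 → ∀ b : ℕ → ℂ, (∀ n, ‖b n‖ ≤ 1) → ∀ V : ℝ, 0 < V →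
    Mass N b (Icc 0 (T : ℤ)) V ≤ K * (N : ℝ) ^ ε * ((N : ℝ) ^ 2 + √T * (N : ℝ) ^ 3 / V ^ 2)

def Int3Stmt : Prop := ∀ ε : ℝ, 0 < ε → ∃ K : ℝ, 0 < K ∧ ∀ N T : ℕ, 1 ≤ N → N ≤ T →
  ∀ b : ℕ → ℂ, (∀ n, ‖b n‖ ≤ 1) → ∀ V : ℝ, 0 < V →
    Mass N b (Icc 0 (T : ℤ)) V ≤ K * (N : ℝ) ^ ε *
      ((N : ℝ) ^ 2 + (√T * (N : ℝ) ^ 3 + T * (N : ℝ) ^ (55 / 23 : ℝ)) / V ^ 2)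

def Final3Stmt : Prop := ∀ ε : ℝ, 0 < ε → ∃ K : ℝ, ∀ (N : ℕ) (T V : ℝ), 1 ≤ N → (N : ℝ) ≤ T →
  0 < V → ∀ b : ℕ → ℂ, (∀ n, ‖b n‖ ≤ 1) → ∀ W : Finset ℝ, (∀ t ∈ W, 0 ≤ t ∧ t ≤ T) →
    (∀ s ∈ W, ∀ t ∈ W, s ≠ t → 1 ≤ |s - t|) → (∀ t ∈ W, V ≤ ‖DP N b t‖) →
    (W.card : ℝ) ≤ K * (N : ℝ) ^ ε * ((N : ℝ) ^ 2 / V ^ 2 + √T * (N : ℝ) ^ 3 / V ^ 4 +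
      T * (N : ℝ) ^ (55 / 23 : ℝ) / V ^ 4)

lemma N1_nonneg (s : Finset ℤ) (g : ℤ → ℝ) : 0 ≤ N1 s g :=
  intervalIntegral.integral_nonneg (by linarith [Real.pi_pos]) fun _ _ => norm_nonneg _

lemma continuous_FT_exp (s : Finset ℤ) (g : ℤ → ℝ) : Continuous fun u => FT s g (Real.exp u) :=
  (continuousOn_FT s g).comp_continuous Real.continuous_exp fun u => Real.exp_pos u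

lemma HE_mono {N M : ℕ} {I I' : Finset ℤ} {E : ℝ} (h : HE N M I E) (hI : I' ⊆ I) : HE N M I' E :=
  fun s hs => (sum_le_sum_of_subset_of_nonneg hI fun _ _ _ => norm_nonneg _).trans (h s (hI hs))

lemma HS_mono {N M : ℕ} {b : ℕ → ℂ} {I I' : Finset ℤ} {S : ℝ} (h : HS N M b I S) (hI : I' ⊆ I) :
    HS N M b I' S :=
  fun s hs => (sum_le_sum_of_subset_of_nonneg hI fun _ _ _ => by positivity).trans (h s (hI hs))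

end Pool.Agent.MP_2a1f0e_nt.GM3
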