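import Pool.Agent.MP_2a1f0e_nt.GM3.Defs
import Pool.Agent.MP_2a1f0e_nt.GM.Par
set_option autoImplicit false
open Finset
namespace Pool.Agent.MP_2a1f0e_nt.GM3
open GM GM2

/-- the Dirichlet kernel -/
noncomputable def D_Dir (L : ℕ) (u : ℝ) : ℂ :=
  ∑ t ∈ Io L, Complex.exp (Complex.I * ((t : ℝ) : ℂ) * (u : ℂ))

lemma cont_Dir (L : ℕ) : Continuous fun u => ‖D_Dir L u‖ := by
  unfold D_Dir
  fun_prop

lemma per_Dir (L : ℕ) : Function.Periodic (fun u => ‖D_Dir L u‖) (2 * Real.pi) := fun u => by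
  unfold D_Dir
  refine congrArg norm (sum_congr rfl fun t _ => ?_)
  rw [← mul_one (Complex.exp (_ * (u : ℂ))), ← Complex.exp_int_mul_two_pi_mul_I t,
    ← Complex.exp_add]
  congr 1
  push_cast
  ring

lemma gs_Dir (L : ℕ) (u : ℝ) :
    ‖D_Dir L u‖ = ‖gs ((L : ℤ) - -(L : ℤ) - 1).toNat (u / (2 * Real.pi))‖ := by
  have h : D_Dir L u = ex ((-(L : ℝ) + 1) * (u / (2 * Real.pi))) *
      gs ((L : ℤ) - -(L : ℤ) - 1).toNat (u / (2 * Real.pi)) := by
    unfold D_Dir gs Io
    rw [Int.Ioo_eq_finset_map, sum_map, mul_sum]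
    refine sum_congr rfl fun r _ => ?_
    rw [← ex_add, ex]
    congr 1
    have : (Real.pi : ℂ) ≠ 0 := by exact_mod_cast Real.pi_ne_zero
    simp only [Function.Embedding.trans_apply, Nat.castEmbedding_apply, addLeftEmbedding_apply]
    push_cast
    field_simp
  rw [h, norm_mul, norm_ex, one_mul]

lemma bd_Dir (L : ℕ) {u : ℝ} (hu : u ∈ Set.Icc (-Real.pi) Real.pi) :
    ‖D_Dir L u‖ ≤ 6 * L / (1 + L * |u|) := by
  have hp := Real.pi_pos
  have h0 : |u / (2 * Real.pi)| = |u| / (2 * Real.pi) := by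
    rw [abs_div, abs_of_pos (a := 2 * Real.pi) (by positivity)]
  have h1 : |u / (2 * Real.pi)| ≤ 1 / 2 := by
    rw [h0, div_le_iff₀ (by positivity)]
    linarith [abs_le.2 hu]
  rw [gs_Dir, le_div_iff₀ (by positivity)]
  have hn : (((L : ℤ) - -(L : ℤ) - 1).toNat : ℝ) ≤ 2 * L := by
    exact_mod_cast (show ((L : ℤ) - -(L : ℤ) - 1).toNat ≤ 2 * L by omega)
  generalize ((L : ℤ) - -(L : ℤ) - 1).toNat = n at hn
  have h2 : ‖gs n (u / (2 * Real.pi))‖ ≤ n :=
    (norm_sum_le _ _).trans (by simp [norm_ex])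
  have h3 := mul_le_mul_of_nonneg_left (norm_ex_sub_one h1) (norm_nonneg (gs n (u / (2 * Real.pi))))
  rw [← norm_mul, gs_mul, h0] at h3
  have h4 := h3.trans (norm_sub_le _ _)
  rw [norm_ex, norm_one, ← mul_div_assoc, ← mul_div_assoc, div_le_iff₀ (by positivity)] at h4
  have h5 : ‖gs n (u / (2 * Real.pi))‖ * |u| ≤ 4 := by linarith [Real.pi_le_four]
  have h6 := mul_le_mul_of_nonneg_left h5 (Nat.cast_nonneg (α := ℝ) L)
  linarith

lemma int_Dir (L : ℕ) :
    ∫ u in (-Real.pi)..Real.pi, ‖D_Dir L u‖ ≤ 12 * Real.log (1 + L * Real.pi) := by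
  have hp := Real.pi_pos
  have hc : Continuous fun u : ℝ => 6 * (L : ℝ) / (1 + L * |u|) :=
    continuous_const.div (by fun_prop) fun u => by positivity
  have h1 : ∫ u in (0 : ℝ)..Real.pi, 6 * (L : ℝ) / (1 + L * |u|) =
      6 * Real.log (1 + L * Real.pi) := by
    rw [intervalIntegral.integral_eq_sub_of_hasDerivAt (f := fun u => 6 * Real.log (1 + L * u))
      (fun u hu => ?_) (hc.intervalIntegrable _ _)]
    · simp
    · rw [Set.uIcc_of_le hp.le] at hu
      have h0 := hu.1
      rw [abs_of_nonneg h0, mul_div_assoc]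
      have := (((hasDerivAt_id u).const_mul (L : ℝ)).const_add 1).log
        (show 1 + (L : ℝ) * u ≠ 0 by positivity)
      rw [mul_one] at this
      exact this.const_mul 6
  have h2 : ∫ u in (-Real.pi)..0, 6 * (L : ℝ) / (1 + L * |u|) =
      6 * Real.log (1 + L * Real.pi) := by
    have := intervalIntegral.integral_comp_neg (a := 0) (b := Real.pi)
      fun u : ℝ => 6 * (L : ℝ) / (1 + L * |u|)
    simp only [abs_neg, neg_zero] at this
    rw [← this, h1]
  refine (intervalIntegral.integral_mono_on (by linarith) ((cont_Dir L).intervalIntegrable _ _)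
    (hc.intervalIntegrable _ _) fun u hu => bd_Dir L hu).trans_eq ?_
  rw [← intervalIntegral.integral_add_adjacent_intervals (b := 0) (hc.intervalIntegrable _ _)
    (hc.intervalIntegrable _ _), h1, h2]
  ring

lemma shift_Dir (L : ℕ) (x : ℝ) : ∫ u in (-Real.pi)..Real.pi, ‖D_Dir L (u + x)‖ =
    ∫ u in (-Real.pi)..Real.pi, ‖D_Dir L u‖ := by
  have h := (per_Dir L).intervalIntegral_add_eq (-Real.pi + x) (-Real.pi)
  rw [intervalIntegral.integral_comp_add_right fun u => ‖D_Dir L u‖,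
    show Real.pi + x = -Real.pi + x + 2 * Real.pi by ring, h,
    show -Real.pi + 2 * Real.pi = Real.pi by ring]

lemma pt_Dir (L : ℕ) (x α u : ℝ) :
    ‖FT (Io L) (fun t => Real.cos ((t : ℝ) * x + α)) (Real.exp u)‖ ≤
      ‖D_Dir L (u + x)‖ + ‖D_Dir L (u + -x)‖ := by
  have h : 2 * FT (Io L) (fun t => Real.cos ((t : ℝ) * x + α)) (Real.exp u) =
      Complex.exp (α * Complex.I) * D_Dir L (u + x) +
        Complex.exp ((-α : ℝ) * Complex.I) * D_Dir L (u + -x) := by
    unfold FT D_Dir pw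
    rw [mul_sum, mul_sum, mul_sum, ← sum_add_distrib]
    refine sum_congr rfl fun t _ => ?_
    rw [Real.log_exp, ← mul_assoc, Complex.ofReal_cos, Complex.two_cos, add_mul]
    simp only [← Complex.exp_add]
    congr 2 <;> push_cast <;> ring
  have h1 := (congrArg norm h).le.trans (norm_add_le _ _)
  rw [norm_mul, norm_mul, norm_mul, Complex.norm_exp_ofReal_mul_I, Complex.norm_exp_ofReal_mul_I,
    Complex.norm_two] at h1
  linarith [norm_nonneg (D_Dir L (u + x)), norm_nonneg (D_Dir L (u + -x))]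

theorem dir_stmt : DirStmt := by
  refine ⟨96, by norm_num, fun L hL x α => ?_⟩
  have hp := Real.pi_pos
  have c : ∀ y : ℝ, Continuous fun u => ‖D_Dir L (u + y)‖ := fun y =>
    (cont_Dir L).comp (continuous_add_const y)
  have h1 := intervalIntegral.integral_mono_on (μ := MeasureTheory.volume)
    (show -Real.pi ≤ Real.pi by linarith)
    ((continuous_FT_exp _ _).norm.intervalIntegrable _ _)
    (((c x).add (c (-x))).intervalIntegrable _ _) fun u _ => pt_Dir L x α u
  simp only [Pi.add_apply] at h1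
  rw [intervalIntegral.integral_add ((c x).intervalIntegrable _ _)
    ((c (-x)).intervalIntegrable _ _), shift_Dir, shift_Dir] at h1
  have h2 := int_Dir L
  have h3 : (L : ℝ) ≤ 2 ^ (Nat.log 2 L + 1) := by
    exact_mod_cast (Nat.lt_pow_succ_log_self one_lt_two L).le
  have h4 : (1 : ℝ) ≤ L := by exact_mod_cast hL
  have h5 : Real.log (1 + L * Real.pi) ≤ Real.log (2 ^ (Nat.log 2 L + 4)) := by
    refine Real.log_le_log (by positivity) ?_
    rw [show Nat.log 2 L + 4 = Nat.log 2 L + 1 + 3 by ring, pow_add]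
    nlinarith [Real.pi_le_four]
  rw [Real.log_pow] at h5
  push_cast at h5
  have h6 : Real.log 2 ≤ 1 := by linarith [Real.log_le_sub_one_of_pos two_pos]
  have h7 : (0 : ℝ) ≤ Nat.log 2 L := Nat.cast_nonneg _
  have h8 := mul_le_mul_of_nonneg_left h6 (show (0 : ℝ) ≤ Nat.log 2 L + 4 by linarith)
  unfold N1
  linarith

theorem nOne_stmt : NOneStmt := by
  refine ⟨82 / 9, by norm_num, fun s g => ?_⟩
  have hc : Continuous fun θ => ‖F_Par s g θ‖ := (cont_Par s g).norm
  have hab : (1 / 9 : ℝ) ≤ 82 / 9 := by norm_num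
  have hpos : ∀ x ∈ Set.uIcc (1 / 9 : ℝ) (82 / 9), x ≠ 0 := fun x hx => by
    rw [Set.uIcc_of_le hab] at hx
    linarith [hx.1]
  have hlog : ContinuousOn Real.log (Set.uIcc (1 / 9 : ℝ) (82 / 9)) :=
    Real.continuousOn_log.mono hpos
  have hinv : ContinuousOn (fun x : ℝ => x⁻¹) (Set.uIcc (1 / 9 : ℝ) (82 / 9)) :=
    continuousOn_inv₀.mono hpos
  have h1 := intervalIntegral.integral_comp_mul_deriv (a := (1 / 9 : ℝ)) (b := 82 / 9)
    (fun x hx => Real.hasDerivAt_log (hpos x hx)) hinv hc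
  have h2 : II (fun v => ‖FT s g v‖) ≤ ∫ x in (1 / 9 : ℝ)..(82 / 9),
      82 / 9 * (((fun θ => ‖F_Par s g θ‖) ∘ Real.log) x * x⁻¹) := by
    refine intervalIntegral.integral_mono_on hab
      (hc.comp_continuousOn hlog).intervalIntegrable
      (continuousOn_const.mul ((hc.comp_continuousOn hlog).mul hinv)).intervalIntegrable
      fun x hx => ?_
    have hx0 : 0 < x := by linarith [hx.1]
    change ‖F_Par s g (Real.log x)‖ ≤ 82 / 9 * (‖F_Par s g (Real.log x)‖ * x⁻¹)
    rw [mul_left_comm]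
    refine le_mul_of_one_le_right (by positivity) ?_
    rw [← div_eq_mul_inv, one_le_div hx0]
    exact hx.2
  rw [intervalIntegral.integral_const_mul, h1] at h2
  have he : (82 / 9 : ℝ) ≤ Real.exp 3 := by
    have := Real.sum_le_exp_of_nonneg (x := 3) (by norm_num) 4
    simp only [sum_range_succ, Nat.factorial] at this
    norm_num at this
    linarith
  have hu : Real.log (82 / 9) ≤ Real.pi :=
    ((Real.log_le_iff_le_exp (by norm_num)).2 he).trans Real.pi_gt_three.le
  have hl : -Real.pi ≤ Real.log (1 / 9) := by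
    rw [one_div, Real.log_inv, neg_le_neg_iff]
    exact (Real.log_le_log (by norm_num) (by norm_num)).trans hu
  have h3 := intervalIntegral.integral_mono_interval (μ := MeasureTheory.volume) hl
    (Real.log_le_log (by norm_num) hab) hu
    (Filter.Eventually.of_forall fun θ => norm_nonneg (F_Par s g θ)) (hc.intervalIntegrable _ _)
  have h4 : N1 s g = ∫ θ in (-Real.pi)..Real.pi, ‖F_Par s g θ‖ := by
    simp only [N1, FT, pw, F_Par, Real.log_exp]
  linarith

end Pool.Agent.MP_2a1f0e_nt.GM3
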