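import Pool.Agent.MP_2a1f0e_nt.GM3.Defs
import Pool.Agent.MP_2a1f0e_nt.GM2.Err

set_option autoImplicit false

open Finset

namespace Pool.Agent.MP_2a1f0e_nt.GM3

open GM GM2

lemma add_Err3 (N M : ℕ) (s : Finset ℤ) (d h a b : ℤ → ℝ) :
    Q33 N M s d a b = Q33 N M s (fun t => d t - h t) a b + Q33 N M s h a b := by
  unfold Q33
  simp only [← sum_add_distrib]
  refine sum_congr rfl fun x _ => sum_congr rfl fun y _ => sum_congr rfl fun z _ => ?_
  push_cast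
  ring

open MeasureTheory in
lemma two_Err3 (N M : ℕ) {e p q : ℝ → ℝ} (he : Nice e) (hp : Nice p) (hq : Nice q) :
    2 * Tr3 N M e p q ≤ Tr3 N M e (fun v => p v ^ 2) (fun _ => 1) +
      Tr3 N M e (fun _ => 1) (fun v => q v ^ 2) := by
  have i1 := int_Err N M he (sq_Err hp) one_Err
  have i2 := int_Err N M he one_Err (sq_Err hq)
  rw [tr_eq_Err N M he hp hq, tr_eq_Err N M he (sq_Err hp) one_Err,
    tr_eq_Err N M he one_Err (sq_Err hq), ← integral_add' i1 i2, ← integral_const_mul]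
  refine integral_mono ((int_Err N M he hp hq).const_mul 2) (i1.add i2) fun z => ?_
  have h := mul_nonneg (mul_nonneg (he.2.1 z.1) (sq_nonneg (p (z.2 / z.1) - q z.2)))
    (kp3_nonneg N M z.1 z.2)
  simp only [Pi.add_apply]
  linarith

lemma pb_Err3 {N M : ℕ} {Δ A X E₁ H : ℝ} {e p : ℝ → ℝ} (hΔ : 0 ≤ Δ) (hA : 0 ≤ A) (hH : 0 ≤ H)
    (hX : 0 ≤ X) (he : Nice e) (hp : Nice p) (h1 : II e ≤ E₁) (h2 : ∀ v, e v ≤ 2 * A + H)
    (h3 : II (fun v => p v ^ 2) ≤ 60 * X) (h4 : ∀ v, p v ≤ A) :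
    PB N M Δ e (fun v => p v ^ 2) ≤
      60 * ((M : ℝ) ^ 2 * E₁ * X + M * Δ * √(E₁ * (A + H)) * A * √X) / N := by
  have c2 : ∀ {a}, Nice a → ContinuousOn (fun v => a v ^ 2) (Set.Icc (1 / 9 : ℝ) (82 / 9)) :=
    fun h => (h.1.pow 2).mono Icc_sub_Ioi
  have e0 : 0 ≤ II e := II_nonneg he.2.1
  have hE : 0 ≤ E₁ := e0.trans h1
  have p0 : 0 ≤ II fun v => p v ^ 2 := II_nonneg fun _ => sq_nonneg _
  have d1 : √(II fun v => e v ^ 2) ≤ 2 * √(E₁ * (A + H)) := by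
    have := II_mono (g := fun v => (2 * A + H) * e v) (c2 he)
      (continuousOn_const.mul (he.1.mono Icc_sub_Ioi)) fun v _ => by
        rw [sq]; exact mul_le_mul_of_nonneg_right (h2 v) (he.2.1 v)
    rw [II_mul_Err] at this
    refine Real.sqrt_le_iff.2 ⟨by positivity, this.trans ?_⟩
    rw [mul_pow, Real.sq_sqrt (by positivity)]
    nlinarith [mul_le_mul_of_nonneg_left h1 (show 0 ≤ 2 * A + H by positivity),
      mul_nonneg hE hA, mul_nonneg hE hH]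
  have d2 : √(II fun v => (p v ^ 2) ^ 2) ≤ 8 * A * √X := by
    have := II_mono (g := fun v => A ^ 2 * p v ^ 2) (c2 (sq_Err hp))
      (continuousOn_const.mul (c2 hp)) fun v _ => by
        rw [sq (p v ^ 2)]
        exact mul_le_mul_of_nonneg_right (pow_le_pow_left₀ (hp.2.1 v) (h4 v) 2) (sq_nonneg _)
    rw [II_mul_Err] at this
    refine Real.sqrt_le_iff.2 ⟨by positivity, this.trans ?_⟩
    rw [mul_pow, mul_pow, Real.sq_sqrt hX]
    linarith [mul_le_mul_of_nonneg_left h3 (sq_nonneg A), mul_nonneg (sq_nonneg A) hX]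
  calc PB N M Δ e (fun v => p v ^ 2)
      ≤ (M : ℝ) ^ 2 / N * E₁ * (60 * X) + M * Δ / N * (2 * √(E₁ * (A + H))) * (8 * A * √X) := by
        unfold PB; gcongr
    _ = (60 * ((M : ℝ) ^ 2 * E₁ * X) + 16 * (M * Δ * √(E₁ * (A + H)) * A * √X)) / N := by ring
    _ ≤ _ := by
        rw [mul_add 60]
        gcongr
        norm_num

theorem err3_stmt (h3 : Three3Stmt) (hT : Tri2Stmt) (hPar : ParStmt) (hH : HStmt) :
    Err3Stmt := by
  obtain ⟨C₃, c₃, h3⟩ := h3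
  obtain ⟨C₄, c₄, hT⟩ := hT
  obtain ⟨C₅, c₅, hH⟩ := hH
  refine ⟨3 * (60 * C₃ * C₄ + C₅), by positivity,
    fun N M Δ E A X E₁ H s g f h hN hD hE hHE hA hg hf kg kf hE₁ hh => ?_⟩
  have hX : 0 ≤ X := (sum_nonneg fun _ _ => sq_nonneg _).trans hg
  have hΔ : 0 ≤ Δ := zero_le_one.trans hD.1
  have hH0 : 0 ≤ H := (sum_nonneg fun _ _ => abs_nonneg _).trans hh
  have hE0 : 0 ≤ E₁ := (II_nonneg fun _ => norm_nonneg _).trans hE₁
  have hN0 : (0 : ℝ) < N := by exact_mod_cast hN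
  have hD' : DivB (N * M) Δ := DivB_mono hD (Nat.mul_le_mul_right _ (by omega))
  have ne := FT_Err s fun t => g t - f t - h t
  have ke : ∀ v, ‖FT s (fun t => g t - f t - h t) v‖ ≤ 2 * A + H := fun v => by
    rw [FT_sub_Err s (fun t => g t - f t), FT_sub_Err]
    linarith [norm_sub_le (FT s g v - FT s f v) (FT s h v), norm_sub_le (FT s g v) (FT s f v),
      kg v, kf v, norm_FT_le s h v]
  obtain ⟨W, hW⟩ : ∃ W, W = (M : ℝ) ^ 2 * E₁ * X + M * Δ * √(E₁ * (A + H)) * A * √X := ⟨_, rfl⟩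
  obtain ⟨V, hV⟩ : ∃ V, V = (N : ℝ) ^ 2 * M * Δ + E * (N * M) := ⟨_, rfl⟩
  have W0 : 0 ≤ W := by rw [hW]; positivity
  have V0 : 0 ≤ V := by rw [hV]; positivity
  have key : ∀ a b : ℤ → ℝ, ∑ t ∈ s, a t ^ 2 ≤ X → ∑ t ∈ s, b t ^ 2 ≤ X → (∀ v, ‖FT s a v‖ ≤ A) →
      (∀ v, ‖FT s b v‖ ≤ A) → ‖Q33 N M s (fun t => g t - f t) a b‖ ≤
        (60 * C₃ * C₄ + C₅) * ((N : ℝ) ^ 2 * W + V * H * X) := fun a b ha hb ka kb => by
    have pa := pb_Err3 (N := N) (M := M) hΔ hA hH0 hX ne (FT_Err s a) hE₁ ke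
      ((hPar s a).trans (mul_le_mul_of_nonneg_left ha (by norm_num))) ka
    have pb := pb_Err3 (N := N) (M := M) hΔ hA hH0 hX ne (FT_Err s b) hE₁ ke
      ((hPar s b).trans (mul_le_mul_of_nonneg_left hb (by norm_num))) kb
    rw [← hW] at pa pb
    have t1 := (hT N M Δ hN hD' _ _ ne (sq_Err (FT_Err s a))).1.trans
      (mul_le_mul_of_nonneg_left pa c₄.le)
    have t2 := (hT N M Δ hN hD' _ _ ne (sq_Err (FT_Err s b))).2.1.trans
      (mul_le_mul_of_nonneg_left pb c₄.le)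
    have t3 := two_Err3 N M ne (FT_Err s a) (FT_Err s b)
    have t4 := (h3 N M hN s (fun t => g t - f t - h t) a b).trans (mul_le_mul_of_nonneg_left
      (show _ ≤ C₄ * (60 * W / N) by linarith) (by positivity))
    have t5 := hH N M Δ E X s h a b hN hD hE hHE ha hb
    rw [← hV] at t5
    have t6 : C₅ * V * (∑ t ∈ s, |h t|) * X ≤ C₅ * V * H * X := by gcongr
    have t7 : C₃ * (N : ℝ) ^ 3 * (C₄ * (60 * W / N)) = 60 * C₃ * C₄ * ((N : ℝ) ^ 2 * W) := by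
      field_simp
    have t8 : 0 ≤ 60 * C₃ * C₄ * (V * H * X) := by positivity
    have t9 : 0 ≤ C₅ * ((N : ℝ) ^ 2 * W) := by positivity
    rw [add_Err3 N M s _ h]
    refine (norm_add_le _ _).trans ?_
    linarith
  rw [split_Err, ← hW, ← hV]
  refine ((norm_add_le _ _).trans (add_le_add ((norm_add_le _ _).trans (add_le_add
    (key g g hg hg kg kg) (key g f hg hf kg kf))) (key f f hf hf kf kf))).trans (le_of_eq ?_)
  ring

end Pool.Agent.MP_2a1f0e_nt.GM3
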