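import Pool.Agent.MP_2a1f0e_nt.GM3.Defs

set_option autoImplicit false

open Finset

namespace Pool.Agent.MP_2a1f0e_nt.GM3

open GM GM2

lemma mink_HOne {ι : Type*} (s : Finset ι) (f : ℤ → ι → ℂ) (F : ι → ℂ) (d : ℤ → ℝ)
    (g : ℤ → ι → ℝ) (B : ℝ) (hd : Summable d) (d0 : ∀ k, 0 ≤ d k)
    (hf : ∀ i ∈ s, HasSum (fun k => f k i) (F i)) (hg : ∀ k, ∀ i ∈ s, ‖f k i‖ ≤ d k * g k i)
    (hB : ∀ k, ∑ i ∈ s, g k i ^ 2 ≤ B) : ∑ i ∈ s, ‖F i‖ ^ 2 ≤ (∑' k, d k) ^ 2 * B := by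
  have B0 : 0 ≤ B := (sum_nonneg fun _ _ => sq_nonneg _).trans (hB 0)
  have Q0 : 0 ≤ ∑ i ∈ s, ‖F i‖ ^ 2 := sum_nonneg fun _ _ => sq_nonneg _
  have h1 : HasSum (fun k => ∑ i ∈ s, f k i * (starRingEnd ℂ) (F i))
      (∑ i ∈ s, F i * (starRingEnd ℂ) (F i)) := hasSum_sum fun i hi => (hf i hi).mul_right _
  have h2 : ∑ i ∈ s, F i * (starRingEnd ℂ) (F i) = ((∑ i ∈ s, ‖F i‖ ^ 2 : ℝ) : ℂ) := by
    rw [Complex.ofReal_sum]
    exact sum_congr rfl fun i _ => by rw [Complex.mul_conj, Complex.normSq_eq_norm_sq]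
  have h3 := h1.norm_le_of_bounded (hd.hasSum.mul_right (√B * √(∑ i ∈ s, ‖F i‖ ^ 2))) fun k => by
    refine (norm_sum_le _ _).trans ?_
    have h4 : ∑ i ∈ s, ‖f k i * (starRingEnd ℂ) (F i)‖ ≤ d k * ∑ i ∈ s, g k i * ‖F i‖ := by
      rw [mul_sum]
      refine sum_le_sum fun i hi => ?_
      rw [norm_mul, Complex.norm_conj, ← mul_assoc]
      exact mul_le_mul_of_nonneg_right (hg k i hi) (norm_nonneg _)
    refine h4.trans (mul_le_mul_of_nonneg_left ((Real.sum_mul_le_sqrt_mul_sqrt _ _ _).trans ?_)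
      (d0 k))
    exact mul_le_mul_of_nonneg_right (Real.sqrt_le_sqrt (hB k)) (Real.sqrt_nonneg _)
  rw [h2, Complex.norm_real, Real.norm_of_nonneg Q0] at h3
  generalize ∑ i ∈ s, ‖F i‖ ^ 2 = Q at *
  have e1 := Real.mul_self_sqrt Q0
  have e2 := Real.mul_self_sqrt B0
  generalize ∑' k, d k = D at *
  nlinarith [sq_nonneg (D * √B - √Q)]

lemma bes_HOne (hB : BesStmt) {ψ : ℝ → ℂ} (hψ : ContinuousOn ψ (Set.Icc (1 / 9 : ℝ) (82 / 9)))
    (S : Finset ℤ) :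
    ∑ ξ ∈ S, ‖∫ v in (1 / 9 : ℝ)..(82 / 9), ψ v * ex ((ξ : ℝ) * v)‖ ^ 2 ≤
      36 * II fun v => ‖ψ v‖ ^ 2 := by
  have c1 : ContinuousOn (fun v => (ψ v).re) (Set.Icc (1 / 9 : ℝ) (82 / 9)) :=
    Complex.continuous_re.comp_continuousOn hψ
  have c2 : ContinuousOn (fun v => (ψ v).im) (Set.Icc (1 / 9 : ℝ) (82 / 9)) :=
    Complex.continuous_im.comp_continuousOn hψ
  have h1 := hB _ c1 S
  have h2 := hB _ c2 S
  have h3 : II (fun v => (ψ v).re ^ 2) ≤ II fun v => ‖ψ v‖ ^ 2 :=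
    II_mono (c1.pow 2) (hψ.norm.pow 2) fun v _ =>
      sq_le_sq' (neg_le_of_abs_le (Complex.abs_re_le_norm _)) (Complex.re_le_norm _)
  have h4 : II (fun v => (ψ v).im ^ 2) ≤ II fun v => ‖ψ v‖ ^ 2 :=
    II_mono (c2.pow 2) (hψ.norm.pow 2) fun v _ =>
      sq_le_sq' (neg_le_of_abs_le (Complex.abs_im_le_norm _)) (Complex.im_le_norm _)
  have hi : ∀ {g : ℝ → ℝ}, ContinuousOn g (Set.Icc (1 / 9 : ℝ) (82 / 9)) → ∀ ξ : ℝ,
      IntervalIntegrable (fun v => (g v : ℂ) * ex (ξ * v)) MeasureTheory.volume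
        (1 / 9 : ℝ) (82 / 9) := fun hg ξ =>
    ContinuousOn.intervalIntegrable_of_Icc (by norm_num)
      ((Complex.continuous_ofReal.comp_continuousOn hg).mul
        (continuous_ex.comp (continuous_const.mul continuous_id)).continuousOn)
  have h5 : ∀ ξ ∈ S, ‖∫ v in (1 / 9 : ℝ)..(82 / 9), ψ v * ex ((ξ : ℝ) * v)‖ ^ 2 ≤
      2 * ‖∫ v in (1 / 9 : ℝ)..(82 / 9), ((ψ v).re : ℂ) * ex ((ξ : ℝ) * v)‖ ^ 2 +
      2 * ‖∫ v in (1 / 9 : ℝ)..(82 / 9), ((ψ v).im : ℂ) * ex ((ξ : ℝ) * v)‖ ^ 2 := fun ξ _ => by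
    have e : ∫ v in (1 / 9 : ℝ)..(82 / 9), ψ v * ex ((ξ : ℝ) * v) =
        (∫ v in (1 / 9 : ℝ)..(82 / 9), ((ψ v).re : ℂ) * ex ((ξ : ℝ) * v)) +
        Complex.I * ∫ v in (1 / 9 : ℝ)..(82 / 9), ((ψ v).im : ℂ) * ex ((ξ : ℝ) * v) := by
      rw [← intervalIntegral.integral_const_mul,
        ← intervalIntegral.integral_add (hi c1 _) ((hi c2 _).const_mul _)]
      refine intervalIntegral.integral_congr fun v _ => ?_
      linear_combination (-ex ((ξ : ℝ) * v)) * Complex.re_add_im (ψ v)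
    rw [e]
    generalize ∫ v in (1 / 9 : ℝ)..(82 / 9), ((ψ v).re : ℂ) * ex ((ξ : ℝ) * v) = p
    generalize ∫ v in (1 / 9 : ℝ)..(82 / 9), ((ψ v).im : ℂ) * ex ((ξ : ℝ) * v) = q
    have h6 := norm_add_le p (Complex.I * q)
    rw [norm_mul, Complex.norm_I, one_mul] at h6
    have h7 := pow_le_pow_left₀ (norm_nonneg _) h6 2
    nlinarith [sq_nonneg (‖p‖ - ‖q‖)]
  refine (sum_le_sum h5).trans ?_
  rw [sum_add_distrib, ← mul_sum, ← mul_sum]
  linarith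

lemma scale_HOne {u : ℝ} (hu : Wt u ≠ 0) (w ξ : ℝ) : HH w ξ = (u : ℂ) * pw u w *
    ∫ y in (1 / 9 : ℝ)..(82 / 9), (Wt (u * y) : ℂ) * (pw y w * ex (-(ξ * u) * y)) := by
  obtain ⟨u1, u2⟩ := mem_of_Wt_ne_zero hu
  have hr : 0 < u := by linarith
  have hr' : (u : ℂ) ≠ 0 := by exact_mod_cast hr.ne'
  have h1 := MeasureTheory.Measure.integral_comp_mul_left
    (fun x : ℝ => (Wt x : ℂ) * pw x w * ex (-(ξ * x))) u
  rw [intervalIntegral.integral_of_le (by norm_num),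
    MeasureTheory.setIntegral_eq_integral_of_forall_compl_eq_zero fun y hy => ?_]
  · have h2 : ∀ y : ℝ, (Wt (u * y) : ℂ) * pw (u * y) w * ex (-(ξ * (u * y))) =
        pw u w * ((Wt (u * y) : ℂ) * (pw y w * ex (-(ξ * u) * y))) := fun y => by
      by_cases hv : y = 0
      · have h0 : Wt 0 = 0 := Wt_eq_zero (Or.inl (by norm_num))
        simp [hv, h0]
      · rw [pw_mul hr.ne' hv, show -(ξ * (u * y)) = -(ξ * u) * y by ring]
        ring
    simp only [h2] at h1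
    rw [MeasureTheory.integral_const_mul, abs_of_pos (inv_pos.2 hr), Complex.real_smul] at h1
    rw [mul_assoc, h1]
    unfold HH
    push_cast
    field_simp
  · have h0 : Wt (u * y) = 0 := by
      by_contra h
      obtain ⟨a1, a2⟩ := mem_of_Wt_ne_zero h
      refine hy ⟨?_, ?_⟩
      · by_contra hc
        nlinarith [not_lt.1 hc]
      · by_contra hc
        nlinarith [not_le.1 hc]
    simp [h0]

lemma series_HOne {c : ℤ → ℂ} (hc : Summable fun k => ‖c k‖)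
    (h2 : ∀ t ∈ Set.Icc (1 / 16 : ℝ) 27, HasSum (fun k : ℤ => c k * pw t k) (Wt t : ℂ))
    {u : ℝ} (hu : Wt u ≠ 0) {φ : ℝ → ℂ} (hφ : ContinuousOn φ (Set.Icc (1 / 9 : ℝ) (82 / 9))) :
    HasSum (fun k : ℤ => c k * pw u k * ∫ y in (1 / 9 : ℝ)..(82 / 9), pw y k * φ y)
      (∫ y in (1 / 9 : ℝ)..(82 / 9), (Wt (u * y) : ℂ) * φ y) := by
  obtain ⟨u1, u2⟩ := mem_of_Wt_ne_zero hu
  have hs : Set.uIoc (1 / 9 : ℝ) (82 / 9) ⊆ Set.Icc (1 / 9 : ℝ) (82 / 9) := by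
    rw [Set.uIoc_of_le (by norm_num)]
    exact Set.Ioc_subset_Icc_self
  simp only [← intervalIntegral.integral_const_mul]
  refine intervalIntegral.hasSum_integral_of_dominated_convergence (fun k y => ‖c k‖ * ‖φ y‖)
    (fun k => ?_) (fun k => Filter.Eventually.of_forall fun y _ => ?_)
    (Filter.Eventually.of_forall fun y _ => hc.mul_right _) ?_
    (Filter.Eventually.of_forall fun y hy => ?_)
  · exact ((continuousOn_const.mul (((continuousOn_pw k).mono Icc_sub_Ioi).mul hφ)).mono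
      hs).aestronglyMeasurable measurableSet_uIoc
  · rw [norm_mul, norm_mul, norm_mul, norm_pw, norm_pw, mul_one, one_mul]
  · simp only [tsum_mul_right]
    exact ContinuousOn.intervalIntegrable_of_Icc (by norm_num) (continuousOn_const.mul hφ.norm)
  · obtain ⟨y1, y2⟩ := hs hy
    have k1 := (h2 (u * y) ⟨by nlinarith, by nlinarith⟩).mul_right (φ y)
    have k2 : (fun k : ℤ => c k * pw (u * y) k * φ y) =
        fun k : ℤ => c k * pw u k * (pw y k * φ y) := by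
      funext k
      rw [pw_mul (by linarith : 0 < u).ne' (by linarith : 0 < y).ne']
      ring
    rwa [k2] at k1

/-- the function expanded by Bessel -/
noncomputable def psi_HOne (s : Finset ℤ) (a : ℤ → ℝ) (w : ℝ) (y : ℝ) : ℂ :=
  pw y w * FT s a y⁻¹

lemma cont_HOne (s : Finset ℤ) (a : ℤ → ℝ) (w : ℝ) :
    ContinuousOn (psi_HOne s a w) (Set.Icc (1 / 9 : ℝ) (82 / 9)) :=
  ((continuousOn_pw w).mono Icc_sub_Ioi).mul (continuousOn_FT_comp s a
    (continuousOn_id.inv₀ fun _ hy => (Icc_sub_Ioi hy).ne') fun _ hy =>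
      inv_pos.2 (Icc_sub_Ioi hy))

lemma int_HOne {φ : ℝ → ℂ} (hφ : ContinuousOn φ (Set.Icc (1 / 9 : ℝ) (82 / 9))) (ξ : ℝ) :
    IntervalIntegrable (fun v => φ v * ex (ξ * v)) MeasureTheory.volume (1 / 9 : ℝ) (82 / 9) :=
  ContinuousOn.intervalIntegrable_of_Icc (by norm_num)
    (hφ.mul (continuous_ex.comp (continuous_const.mul continuous_id)).continuousOn)

lemma rep_HOne {N n : ℕ} (hN : 1 ≤ N) (hu : Wt ((n : ℝ) / N) ≠ 0) (M : ℕ) (s : Finset ℤ)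
    (a : ℤ → ℝ) (t : ℤ) :
    ∑ b ∈ s, (a b : ℂ) * Kb N M ((t : ℝ) - b) * pw (n : ℝ) b =
      (n : ℂ) * pw (n : ℝ) t * ∑ m ∈ Ms M, ∫ y in (1 / 9 : ℝ)..(82 / 9),
        (Wt ((n : ℝ) / N * y) : ℂ) * (psi_HOne s a t y * ex (((-(n : ℤ) * m : ℤ) : ℝ) * y)) := by
  have n0 : (0 : ℝ) < N := by exact_mod_cast hN
  have u0 : (0 : ℝ) < (n : ℝ) / N := by linarith [(mem_of_Wt_ne_zero hu).1]
  have cW : Continuous fun y : ℝ => (Wt ((n : ℝ) / N * y) : ℂ) :=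
    Complex.continuous_ofReal.comp (continuous_Wt.comp (continuous_const.mul continuous_id))
  have e1 : ∀ w : ℝ, pw (N : ℝ) w * pw ((n : ℝ) / N) w = pw (n : ℝ) w := fun w => by
    rw [← pw_mul n0.ne' u0.ne', mul_div_cancel₀ _ n0.ne']
  have e2 : (N : ℂ) * (((n : ℝ) / N : ℝ) : ℂ) = n := by
    have : (N : ℂ) ≠ 0 := by exact_mod_cast n0.ne'
    push_cast
    field_simp
  have e3 : ∀ m : ℤ, -((m : ℝ) * N * ((n : ℝ) / N)) = ((-(n : ℤ) * m : ℤ) : ℝ) := fun m => by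
    push_cast
    field_simp
  simp only [Kb, scale_HOne hu, e3, mul_sum, sum_mul]
  rw [sum_comm]
  refine sum_congr rfl fun m _ => ?_
  have e4 : ∀ y, (Wt ((n : ℝ) / N * y) : ℂ) *
      (psi_HOne s a t y * ex (((-(n : ℤ) * m : ℤ) : ℝ) * y)) = ∑ b ∈ s, (a b : ℂ) *
        ((Wt ((n : ℝ) / N * y) : ℂ) * (pw y ((t : ℝ) - b) * ex (((-(n : ℤ) * m : ℤ) : ℝ) * y))) :=
    fun y => by
      simp only [psi_HOne, FT, pw_inv, mul_sum, sum_mul]
      refine sum_congr rfl fun b _ => ?_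
      rw [sub_eq_add_neg, pw_add]
      ring
  simp only [e4]
  rw [intervalIntegral.integral_finsetSum fun b _ => ?_, mul_sum]
  · refine sum_congr rfl fun b _ => ?_
    rw [intervalIntegral.integral_const_mul]
    have e5 : pw (n : ℝ) t = pw (N : ℝ) ((t : ℝ) - b) * pw ((n : ℝ) / N) ((t : ℝ) - b) *
        pw (n : ℝ) b := by rw [e1, ← pw_add, sub_add_cancel]
    rw [e5, ← e2]
    ring
  · exact ContinuousOn.intervalIntegrable_of_Icc (by norm_num) (continuousOn_const.mul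
      (cW.continuousOn.mul (((continuousOn_pw _).mono Icc_sub_Ioi).mul
        (continuous_ex.comp (continuous_const.mul continuous_id)).continuousOn)))

theorem hOne_stmt (hF : FouStmt) (hB : BesStmt) (hD : DivStmt) (hP : ParStmt) : HOneStmt := by
  obtain ⟨c, h1, h2⟩ := hF
  have hc : Summable fun k : ℤ => ‖c k‖ := by
    refine Summable.of_nonneg_of_le (fun _ => norm_nonneg _) (fun k => ?_) h1
    exact le_mul_of_one_le_right (norm_nonneg _)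
      (one_le_pow₀ (le_add_of_nonneg_right (abs_nonneg _)))
  refine ⟨9 * (4 * (36 * 60)) * ((∑' k : ℤ, ‖c k‖) ^ 2 + 1), by positivity,
    fun N M Δ hN hΔ s a t => ?_⟩
  have Δ0 : 0 ≤ Δ := zero_le_one.trans hΔ.1
  have A0 : 0 ≤ ∑ b ∈ s, a b ^ 2 := sum_nonneg fun _ _ => sq_nonneg _
  set G : ℤ → ℤ → ℂ := fun k ξ =>
    ∫ y in (1 / 9 : ℝ)..(82 / 9), psi_HOne s a ((k : ℝ) + t) y * ex ((ξ : ℝ) * y) with hG
  have key := mink_HOne ((Icc 1 (3 * N)).filter fun n : ℕ => Wt ((n : ℝ) / N) ≠ 0)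
    (fun k n => c k * pw ((n : ℝ) / N) k * ∑ m ∈ Ms M, G k (-(n : ℤ) * m))
    (fun n => ∑ m ∈ Ms M, ∫ y in (1 / 9 : ℝ)..(82 / 9),
      (Wt ((n : ℝ) / N * y) : ℂ) * (psi_HOne s a t y * ex (((-(n : ℤ) * m : ℤ) : ℝ) * y)))
    (fun k => ‖c k‖) (fun k n => ‖∑ m ∈ Ms M, G k (-(n : ℤ) * m)‖)
    (4 * M * Δ * (36 * (60 * ∑ b ∈ s, a b ^ 2))) hc (fun _ => norm_nonneg _)
    (fun n hn => by
      simp only [mul_sum]
      refine hasSum_sum fun m _ => ?_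
      have h3 := series_HOne hc h2 (mem_filter.1 hn).2 ((cont_HOne s a t).mul
        (continuous_ex.comp (continuous_const.mul continuous_id)).continuousOn
          (g := fun y => ex (((-(n : ℤ) * m : ℤ) : ℝ) * y)))
      have e : ∀ (k : ℤ) (y : ℝ), pw y k * (psi_HOne s a t y * ex (((-(n : ℤ) * m : ℤ) : ℝ) * y)) =
          psi_HOne s a ((k : ℝ) + t) y * ex (((-(n : ℤ) * m : ℤ) : ℝ) * y) := fun k y => by
        simp only [psi_HOne, pw_add]
        ring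
      simpa only [Pi.mul_apply, e] using h3)
    (fun k n _ => by rw [norm_mul, norm_mul, norm_pw, mul_one])
    (fun k => by
      have h3 := hD (3 * N + 1) M Δ hΔ (G k)
      have h4 := bes_HOne hB (cont_HOne s a ((k : ℝ) + t))
        (Icc (-(((3 * N + 1) * M : ℕ) : ℤ)) (((3 * N + 1) * M : ℕ) : ℤ))
      have h5 : (fun v => ‖psi_HOne s a ((k : ℝ) + t) v‖ ^ 2) = fun v => ‖FT s a v‖ ^ 2 := by
        funext v
        rw [psi_HOne, norm_mul, norm_pw, one_mul, norm_FT_inv]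
      rw [h5] at h4
      refine le_trans ?_ (h3.trans (mul_le_mul_of_nonneg_left (h4.trans
        (mul_le_mul_of_nonneg_left (hP s a) (by norm_num))) (by positivity)))
      rw [← sum_image (g := fun n : ℕ => -(n : ℤ))
        (f := fun l : ℤ => ‖∑ m ∈ Ms M, G k (l * m)‖ ^ 2) fun x _ y _ h => by simpa using h]
      refine sum_le_sum_of_subset_of_nonneg (fun l hl => ?_) fun _ _ _ => sq_nonneg _
      obtain ⟨n, hn, rfl⟩ := mem_image.1 hl
      have := mem_Icc.1 (mem_filter.1 hn).1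
      rw [mem_erase, mem_Ioo]
      omega)
  rw [← sum_filter_of_ne (p := fun n : ℕ => Wt ((n : ℝ) / N) ≠ 0)
    fun n _ h => left_ne_zero_of_mul h]
  have h6 := mul_le_mul_of_nonneg_left key (by positivity : 0 ≤ 9 * (N : ℝ) ^ 2)
  rw [mul_sum] at h6
  refine le_trans (sum_le_sum fun n hn => ?_) (h6.trans ?_)
  · obtain ⟨n1, n2⟩ := mem_filter.1 hn
    have n3 : (n : ℝ) ≤ 3 * N := by exact_mod_cast (mem_Icc.1 n1).2
    rw [rep_HOne hN n2, norm_mul, norm_mul, norm_pw, mul_one, Complex.norm_natCast, mul_pow,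
      ← mul_assoc]
    refine mul_le_mul_of_nonneg_right ?_ (sq_nonneg _)
    have n4 := pow_le_pow_left₀ (Nat.cast_nonneg n) n3 2
    have n5 := mul_le_of_le_one_left (sq_nonneg (n : ℝ)) (Wt_le_one ((n : ℝ) / N))
    linarith
  · have h7 : 0 ≤ (N : ℝ) ^ 2 * M * Δ * ∑ b ∈ s, a b ^ 2 := by positivity
    nlinarith

end Pool.Agent.MP_2a1f0e_nt.GM3
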