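import Pool.Agent.MP_2a1f0e_nt.GM3.Defs
import Pool.Agent.MP_2a1f0e_nt.GM.Cub

set_option autoImplicit false

open Finset

namespace Pool.Agent.MP_2a1f0e_nt.GM3

open GM GM2

lemma gram_HSt (N : ℕ) (I : Finset ℤ) (x z : ℤ → ℂ) :
    ∑ p ∈ I, ∑ q ∈ I, x p * KK N ((p : ℝ) - q) * (starRingEnd ℂ) (z q) =
      ∑ n ∈ Icc 1 (3 * N), (Wt ((n : ℝ) / N) : ℂ) * ((∑ p ∈ I, x p * pw (n : ℝ) p) *
        (starRingEnd ℂ) (∑ q ∈ I, z q * pw (n : ℝ) q)) := by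
  have h1 : ∀ n : ℕ, (Wt ((n : ℝ) / N) : ℂ) * ((∑ p ∈ I, x p * pw (n : ℝ) p) *
        (starRingEnd ℂ) (∑ q ∈ I, z q * pw (n : ℝ) q)) = ∑ p ∈ I, ∑ q ∈ I,
        x p * ((Wt ((n : ℝ) / N) : ℂ) * pw (n : ℝ) ((p : ℝ) - q)) * (starRingEnd ℂ) (z q) := by
    intro n
    rw [map_sum, sum_mul_sum, mul_sum]
    refine sum_congr rfl fun p _ => ?_
    rw [mul_sum]
    refine sum_congr rfl fun q _ => ?_
    rw [pw_sub, map_mul]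
    ring
  simp only [h1]
  rw [sum_comm (s := Icc 1 (3 * N))]
  refine sum_congr rfl fun p _ => ?_
  rw [sum_comm (s := Icc 1 (3 * N))]
  refine sum_congr rfl fun q _ => ?_
  rw [KK, mul_sum, sum_mul]

lemma main_HSt (N : ℕ) (I : Finset ℤ) (x z : ℤ → ℂ) (Y : ℝ)
    (hx : ∑ n ∈ Icc 1 (3 * N), Wt ((n : ℝ) / N) * ‖∑ p ∈ I, x p * pw (n : ℝ) p‖ ^ 2 ≤ Y)
    (hz : ∑ n ∈ Icc 1 (3 * N), Wt ((n : ℝ) / N) * ‖∑ p ∈ I, z p * pw (n : ℝ) p‖ ^ 2 ≤ Y) :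
    ‖∑ p ∈ I, ∑ q ∈ I, x p * KK N ((p : ℝ) - q) * (starRingEnd ℂ) (z q)‖ ≤ Y := by
  rw [gram_HSt]
  refine (norm_sum_le _ _).trans ?_
  have h : ∑ n ∈ Icc 1 (3 * N), ‖(Wt ((n : ℝ) / N) : ℂ) * ((∑ p ∈ I, x p * pw (n : ℝ) p) *
        (starRingEnd ℂ) (∑ q ∈ I, z q * pw (n : ℝ) q))‖ ≤
      ∑ n ∈ Icc 1 (3 * N), (Wt ((n : ℝ) / N) * ‖∑ p ∈ I, x p * pw (n : ℝ) p‖ ^ 2 / 2 +
        Wt ((n : ℝ) / N) * ‖∑ p ∈ I, z p * pw (n : ℝ) p‖ ^ 2 / 2) := by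
    refine sum_le_sum fun n _ => ?_
    rw [norm_mul, norm_mul, Complex.norm_conj, Complex.norm_real, Real.norm_eq_abs,
      abs_of_nonneg (Wt_nonneg _)]
    have h0 := Wt_nonneg ((n : ℝ) / N)
    have h2 := mul_nonneg h0
      (sq_nonneg (‖∑ p ∈ I, x p * pw (n : ℝ) p‖ - ‖∑ p ∈ I, z p * pw (n : ℝ) p‖))
    nlinarith
  rw [sum_add_distrib, ← sum_div, ← sum_div] at h
  linarith

lemma schur_HSt (N M : ℕ) (I : Finset ℤ) (E : ℝ) (hE0 : 0 ≤ E) (hE : HE N M I E) (x z : ℤ → ℂ)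
    (Y : ℝ) (hx : ∑ p ∈ I, ‖x p‖ ^ 2 ≤ Y) (hz : ∑ p ∈ I, ‖z p‖ ^ 2 ≤ Y) :
    ‖∑ p ∈ I, ∑ q ∈ I,
      x p * (KK N ((p : ℝ) - q) - Kb N M ((p : ℝ) - q)) * (starRingEnd ℂ) (z q)‖ ≤ E * Y := by
  have h1 : ‖∑ p ∈ I, ∑ q ∈ I,
      x p * (KK N ((p : ℝ) - q) - Kb N M ((p : ℝ) - q)) * (starRingEnd ℂ) (z q)‖ ≤
      ∑ p ∈ I, ∑ q ∈ I, (‖x p‖ ^ 2 * ‖KK N ((p : ℝ) - q) - Kb N M ((p : ℝ) - q)‖ / 2 +
        ‖z q‖ ^ 2 * ‖KK N ((q : ℝ) - p) - Kb N M ((q : ℝ) - p)‖ / 2) := by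
    refine (norm_sum_le _ _).trans (sum_le_sum fun p _ => ?_)
    refine (norm_sum_le _ _).trans (sum_le_sum fun q _ => ?_)
    rw [norm_mul, norm_mul, Complex.norm_conj, norm_K1_sub N M (q : ℝ) p]
    have h2 := mul_nonneg (norm_nonneg (KK N ((p : ℝ) - q) - Kb N M ((p : ℝ) - q)))
      (sq_nonneg (‖x p‖ - ‖z q‖))
    nlinarith
  have h2 : ∀ y : ℤ → ℂ, ∑ p ∈ I, ‖y p‖ ^ 2 ≤ Y →
      ∑ p ∈ I, ∑ q ∈ I, ‖y p‖ ^ 2 * ‖KK N ((p : ℝ) - q) - Kb N M ((p : ℝ) - q)‖ / 2 ≤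
        E * Y / 2 := by
    intro y hy
    calc _ ≤ ∑ p ∈ I, ‖y p‖ ^ 2 * E / 2 := by
          refine sum_le_sum fun p hp => ?_
          rw [← sum_div, ← mul_sum]
          exact div_le_div_of_nonneg_right
            (mul_le_mul_of_nonneg_left (hE p hp) (sq_nonneg _)) (by norm_num)
      _ = E * (∑ p ∈ I, ‖y p‖ ^ 2) / 2 := by
          rw [← sum_div, ← sum_mul, mul_comm]
      _ ≤ _ := div_le_div_of_nonneg_right (mul_le_mul_of_nonneg_left hy hE0) (by norm_num)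
  simp only [sum_add_distrib] at h1
  have h3 := h2 x hx
  have h4 := h2 z hz
  rw [sum_comm] at h4
  linarith

theorem h_stmt (h1 : HOneStmt) (hK : KsupStmt) : HStmt := by
  obtain ⟨C₁, hC₁, h1⟩ := h1
  obtain ⟨C₂, hC₂, hK⟩ := hK
  refine ⟨C₁ + C₂, by positivity, fun N M Δ E X s h a b hN hΔ hE0 hE ha hb => ?_⟩
  have hX : 0 ≤ X := (sum_nonneg fun _ _ => sq_nonneg _).trans ha
  have hΔ0 : 0 ≤ Δ := zero_le_one.trans hΔ.1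
  have hw : ∀ (g : ℤ → ℝ) (t : ℤ), ∑ p ∈ s, g p ^ 2 ≤ X →
      ∑ n ∈ Icc 1 (3 * N), Wt ((n : ℝ) / N) *
        ‖∑ p ∈ s, (g p : ℂ) * Kb N M ((t : ℝ) - p) * pw (n : ℝ) p‖ ^ 2 ≤
        C₁ * (N : ℝ) ^ 2 * M * Δ * X := fun g t hg =>
    (h1 N M Δ hN hΔ s g t).trans (mul_le_mul_of_nonneg_left hg (by positivity))
  have hs : ∀ (g : ℤ → ℝ) (t : ℤ), ∑ p ∈ s, g p ^ 2 ≤ X →
      ∑ p ∈ s, ‖(g p : ℂ) * Kb N M ((t : ℝ) - p)‖ ^ 2 ≤ C₂ * (N * M) * X := by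
    intro g t hg
    calc _ ≤ ∑ p ∈ s, C₂ * (N * M) * g p ^ 2 := by
          refine sum_le_sum fun p _ => ?_
          have k := hK N M hN (t - p)
          push_cast at k
          rw [norm_mul, mul_pow, Complex.norm_real, Real.norm_eq_abs, sq_abs, mul_comm]
          exact mul_le_mul_of_nonneg_right k (sq_nonneg _)
      _ = C₂ * (N * M) * ∑ p ∈ s, g p ^ 2 := by rw [mul_sum]
      _ ≤ _ := mul_le_mul_of_nonneg_left hg (by positivity)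
  have hS : ∀ t : ℤ, ‖∑ p ∈ s, ∑ q ∈ s, (a p : ℂ) * Kb N M ((t : ℝ) - p) * Kb N M ((p : ℝ) - q) *
      (starRingEnd ℂ) ((b q : ℂ) * Kb N M ((t : ℝ) - q))‖ ≤
      (C₁ + C₂) * ((N : ℝ) ^ 2 * M * Δ + E * (N * M)) * X := by
    intro t
    have k1 := main_HSt N s (fun p => (a p : ℂ) * Kb N M ((t : ℝ) - p))
      (fun p => (b p : ℂ) * Kb N M ((t : ℝ) - p)) _ (hw a t ha) (hw b t hb)
    have k2 := schur_HSt N M s E hE0 hE (fun p => (a p : ℂ) * Kb N M ((t : ℝ) - p))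
      (fun p => (b p : ℂ) * Kb N M ((t : ℝ) - p)) _ (hs a t ha) (hs b t hb)
    have k3 : ∑ p ∈ s, ∑ q ∈ s, (a p : ℂ) * Kb N M ((t : ℝ) - p) * Kb N M ((p : ℝ) - q) *
        (starRingEnd ℂ) ((b q : ℂ) * Kb N M ((t : ℝ) - q)) =
        ∑ p ∈ s, ∑ q ∈ s, (a p : ℂ) * Kb N M ((t : ℝ) - p) * KK N ((p : ℝ) - q) *
          (starRingEnd ℂ) ((b q : ℂ) * Kb N M ((t : ℝ) - q)) -
        ∑ p ∈ s, ∑ q ∈ s, (a p : ℂ) * Kb N M ((t : ℝ) - p) *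
          (KK N ((p : ℝ) - q) - Kb N M ((p : ℝ) - q)) *
          (starRingEnd ℂ) ((b q : ℂ) * Kb N M ((t : ℝ) - q)) := by
      rw [← sum_sub_distrib]
      refine sum_congr rfl fun p _ => ?_
      rw [← sum_sub_distrib]
      exact sum_congr rfl fun q _ => by ring
    rw [k3]
    refine (norm_sub_le _ _).trans ((add_le_add k1 k2).trans ?_)
    have p1 : 0 ≤ C₂ * ((N : ℝ) ^ 2 * M * Δ * X) := by positivity
    have p2 : 0 ≤ C₁ * (E * (N * M) * X) := by positivity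
    nlinarith
  have hQ : Q33 N M s h a b = ∑ t ∈ s, (h t : ℂ) * ∑ p ∈ s, ∑ q ∈ s,
      (a p : ℂ) * Kb N M ((t : ℝ) - p) * Kb N M ((p : ℝ) - q) *
        (starRingEnd ℂ) ((b q : ℂ) * Kb N M ((t : ℝ) - q)) := by
    unfold Q33
    refine sum_congr rfl fun t _ => ?_
    rw [mul_sum]
    refine sum_congr rfl fun p _ => ?_
    rw [mul_sum]
    refine sum_congr rfl fun q _ => ?_
    rw [map_mul, conj_Kb, Complex.conj_ofReal, neg_sub]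
    push_cast
    ring
  rw [hQ]
  refine (norm_sum_le _ _).trans ?_
  calc _ ≤ ∑ t ∈ s, |h t| * ((C₁ + C₂) * ((N : ℝ) ^ 2 * M * Δ + E * (N * M)) * X) := by
        refine sum_le_sum fun t _ => ?_
        rw [norm_mul, Complex.norm_real, Real.norm_eq_abs]
        exact mul_le_mul_of_nonneg_left (hS t) (abs_nonneg _)
    _ = _ := by
        rw [← sum_mul]
        ring

end Pool.Agent.MP_2a1f0e_nt.GM3
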