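import Pool.Agent.MP_2a1f0e_nt.GM3.Defs
import Pool.Agent.MP_2a1f0e_nt.GM.Par
set_option autoImplicit false
open Finset
namespace Pool.Agent.MP_2a1f0e_nt.GM3
open GM GM2

lemma FT_exp_Kkt (s : Finset ℤ) (e : ℤ → ℝ) (u : ℝ) : FT s e (Real.exp u) =
    ∑ t ∈ s, (e t : ℂ) * Complex.exp (Complex.I * ((t : ℝ) : ℂ) * (u : ℂ)) := by
  simp only [FT, pw, Real.log_exp]

lemma cont_Kkt (s : Finset ℤ) : Continuous (N1 s) := by
  refine intervalIntegral.continuous_parametric_intervalIntegral_of_continuous'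
    (f := fun e u => ‖FT s e (Real.exp u)‖) ?_ _ _
  simp only [FT_exp_Kkt, Function.uncurry_def]
  fun_prop

lemma congr_Kkt {s : Finset ℤ} {e e' : ℤ → ℝ} (h : ∀ t ∈ s, e t = e' t) : N1 s e = N1 s e' := by
  have : ∀ v, FT s e v = FT s e' v := fun v => sum_congr rfl fun t ht => by rw [h t ht]
  simp only [N1, this]

lemma add_Kkt (s : Finset ℤ) (e d : ℤ → ℝ) {c : ℝ} (hc : 0 ≤ c) :
    N1 s (fun t => e t + c * d t) ≤ N1 s e + c * N1 s d := by
  have i := fun e => (continuous_FT_exp s e).norm.intervalIntegrable (μ := MeasureTheory.volume)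
    (-Real.pi) Real.pi
  rw [N1, N1, N1, ← intervalIntegral.integral_const_mul,
    ← intervalIntegral.integral_add (i e) ((i d).const_mul c)]
  refine intervalIntegral.integral_mono_on (by linarith [Real.pi_pos]) (i _)
    ((i e).add ((i d).const_mul c)) fun u _ => ?_
  have : FT s (fun t => e t + c * d t) (Real.exp u) =
      FT s e (Real.exp u) + c * FT s d (Real.exp u) := by
    simp only [FT, mul_sum, ← sum_add_distrib]
    exact sum_congr rfl fun t _ => by push_cast; ring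
  rw [this]
  refine (norm_add_le _ _).trans_eq ?_
  rw [norm_mul, Complex.norm_real, Real.norm_of_nonneg hc]

lemma coer_Kkt {s : Finset ℤ} (e : ℤ → ℝ) {t : ℤ} (ht : t ∈ s) : |e t| ≤ N1 s e := by
  have h1 : ∫ u in (-Real.pi)..Real.pi, FT s e (Real.exp u) *
      Complex.exp (Complex.I * ((-t : ℤ) : ℂ) * (u : ℂ)) = (e t * (2 * Real.pi) : ℝ) := by
    have h2 : ∀ u : ℝ, FT s e (Real.exp u) * Complex.exp (Complex.I * ((-t : ℤ) : ℂ) * (u : ℂ)) =
        ∑ a ∈ s, (e a : ℂ) * Complex.exp (Complex.I * ((a - t : ℤ) : ℂ) * (u : ℂ)) := fun u => by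
      rw [FT_exp_Kkt, sum_mul]
      refine sum_congr rfl fun a _ => ?_
      rw [mul_assoc, ← Complex.exp_add]
      congr 2
      push_cast
      ring
    simp only [h2]
    rw [intervalIntegral.integral_finsetSum fun a _ =>
      Continuous.intervalIntegrable (by fun_prop) _ _, sum_eq_single_of_mem t ht]
    · rw [intervalIntegral.integral_const_mul, orth_Par, if_pos (sub_self t)]
      push_cast
      rfl
    · intro a _ ha
      rw [intervalIntegral.integral_const_mul, orth_Par, if_neg (sub_ne_zero.2 ha), mul_zero]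
  have h3 := intervalIntegral.norm_integral_le_integral_norm (μ := MeasureTheory.volume)
    (f := fun u : ℝ => FT s e (Real.exp u) * Complex.exp (Complex.I * ((-t : ℤ) : ℂ) * (u : ℂ)))
    (by linarith [Real.pi_pos] : -Real.pi ≤ Real.pi)
  have h4 : ∀ u : ℝ, ‖Complex.exp (Complex.I * ((-t : ℤ) : ℂ) * (u : ℂ))‖ = 1 := fun u => by
    rw [Complex.norm_exp]
    simp
  simp only [h1, norm_mul, h4, mul_one, Complex.norm_real, Real.norm_eq_abs] at h3
  refine (le_mul_of_one_le_right (abs_nonneg _) ?_).trans h3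
  rw [abs_two, abs_of_pos Real.pi_pos]
  linarith [Real.pi_gt_three]

lemma lim_Kkt {a b c : ℝ} (hc : 0 ≤ c) (h : ∀ ε, 0 < ε → 2 * ε * a ≤ ε ^ 2 * c + 2 * ε * b) :
    a ≤ b := by
  refine le_of_forall_pos_le_add fun η hη => ?_
  have h1 : 0 < η / (c + 1) := by positivity
  have h2 := h _ h1
  have h3 : η / (c + 1) * c ≤ η := by
    rw [div_mul_eq_mul_div, div_le_iff₀ (by positivity)]
    nlinarith
  refine le_of_mul_le_mul_left ?_ h1
  nlinarith

/-- the functional that is minimised -/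
noncomputable def F_Kkt (s : Finset ℤ) (g : ℤ → ℝ) (A μ : ℝ) (p : (ℤ → ℝ) × (ℤ → ℝ)) : ℝ :=
  ∑ t ∈ s, (g t - p.1 t - p.2 t) ^ 2 + 2 * A * N1 s p.1 + 2 * μ * ∑ t ∈ s, |p.2 t|

lemma min_Kkt (s : Finset ℤ) (g : ℤ → ℝ) {A μ : ℝ} (hA : 0 < A) (hμ : 0 < μ) :
    ∃ p, F_Kkt s g A μ p ≤ ∑ t ∈ s, g t ^ 2 ∧ ∀ q, F_Kkt s g A μ p ≤ F_Kkt s g A μ q := by
  classical
  have hc : Continuous (F_Kkt s g A μ) := by
    have := cont_Kkt s
    unfold F_Kkt
    fun_prop
  have h0 : F_Kkt s g A μ 0 = ∑ t ∈ s, g t ^ 2 := by simp [F_Kkt, N1, FT]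
  generalize hG : ∑ t ∈ s, g t ^ 2 = G at h0
  have G0 : 0 ≤ G := hG ▸ sum_nonneg fun _ _ => sq_nonneg _
  have R0 : 0 ≤ G / A + G / μ := by positivity
  have hz : (0 : ℤ → ℝ) ∈ Set.Icc (fun _ => -(G / A + G / μ)) fun _ => G / A + G / μ :=
    ⟨fun _ => neg_nonpos.2 R0, fun _ => R0⟩
  obtain ⟨p, -, hp⟩ := (isCompact_Icc.prod isCompact_Icc).exists_isMinOn ⟨0, hz, hz⟩
    hc.continuousOn
  have h1 : F_Kkt s g A μ p ≤ G := h0 ▸ hp ⟨hz, hz⟩
  refine ⟨p, h1, fun q => ?_⟩
  rcases le_total G (F_Kkt s g A μ q) with h | h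
  · exact h1.trans h
  have key : ∀ e : ℤ → ℝ, (∀ t ∈ s, |e t| ≤ G / A + G / μ) → (fun t => if t ∈ s then e t else 0) ∈
      Set.Icc (fun _ => -(G / A + G / μ)) fun _ => G / A + G / μ := fun e he =>
    ⟨fun t => by
      by_cases ht : t ∈ s
      · simpa only [if_pos ht] using (abs_le.1 (he t ht)).1
      · simpa only [if_neg ht] using neg_nonpos.2 R0, fun t => by
      by_cases ht : t ∈ s
      · simpa only [if_pos ht] using (abs_le.1 (he t ht)).2
      · simpa only [if_neg ht] using R0⟩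
  have a1 : 0 ≤ ∑ t ∈ s, (g t - q.1 t - q.2 t) ^ 2 := sum_nonneg fun _ _ => sq_nonneg _
  have a2 := mul_nonneg hA.le (N1_nonneg s q.1)
  have a3 : 0 ≤ μ * ∑ t ∈ s, |q.2 t| := by positivity
  unfold F_Kkt at h
  refine (hp (a := (fun t => if t ∈ s then q.1 t else 0, fun t => if t ∈ s then q.2 t else 0))
    ⟨key _ fun t ht => ?_, key _ fun t ht => ?_⟩).trans_eq ?_
  · refine le_add_of_le_of_nonneg ((le_div_iff₀' hA).2 ?_) (by positivity)
    linarith [mul_le_mul_of_nonneg_left (coer_Kkt q.1 ht) hA.le]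
  · refine le_add_of_nonneg_of_le (by positivity) ((le_div_iff₀' hμ).2 ?_)
    linarith [mul_le_mul_of_nonneg_left
      (single_le_sum (f := fun t => |q.2 t|) (fun _ _ => abs_nonneg _) ht) hμ.le]
  · unfold F_Kkt
    rw [congr_Kkt (e' := q.1) fun t ht => if_pos ht, sum_congr rfl fun t ht => by
      simp only [if_pos ht]; rfl, sum_congr (f := fun t => |if t ∈ s then q.2 t else 0|) rfl
        fun t ht => by rw [if_pos ht]]

theorem kkt_stmt : KktStmt := by
  classical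
  intro s g A μ hA hμ
  obtain ⟨⟨e, h⟩, h1, h2⟩ := min_Kkt s g hA hμ
  have sq : ∀ (d : ℤ → ℝ) (ε : ℝ), ∑ t ∈ s, (g t - e t - h t - ε * d t) ^ 2 =
      ∑ t ∈ s, (g t - e t - h t) ^ 2 - 2 * ε * ∑ t ∈ s, (g t - e t - h t) * d t +
        ε ^ 2 * ∑ t ∈ s, d t ^ 2 := fun d ε => by
    simp only [mul_sum, ← sum_sub_distrib, ← sum_add_distrib]
    exact sum_congr rfl fun t _ => by ring
  have k1 : ∀ d : ℤ → ℝ, ∑ t ∈ s, (g t - e t - h t) * d t ≤ A * N1 s d := fun d =>
    lim_Kkt (sum_nonneg fun t (_ : t ∈ s) => sq_nonneg (d t)) fun ε hε => by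
      have a1 := h2 (fun t => e t + ε * d t, h)
      have a2 := mul_le_mul_of_nonneg_left (add_Kkt s e d hε.le) hA.le
      have a3 := sq d ε
      simp only [F_Kkt, ← sub_sub, sub_right_comm _ (ε * _)] at a1
      linarith
  have k2 : ∀ d : ℤ → ℝ, ∑ t ∈ s, (g t - e t - h t) * d t ≤ μ * ∑ t ∈ s, |d t| := fun d =>
    lim_Kkt (sum_nonneg fun t (_ : t ∈ s) => sq_nonneg (d t)) fun ε hε => by
      have a1 := h2 (e, fun t => h t + ε * d t)
      have a2 : ∑ t ∈ s, |h t + ε * d t| ≤ ∑ t ∈ s, |h t| + ε * ∑ t ∈ s, |d t| := by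
        rw [mul_sum, ← sum_add_distrib]
        exact sum_le_sum fun t _ => (abs_add_le _ _).trans_eq (by rw [abs_mul, abs_of_pos hε])
      have a3 := sq d ε
      have a4 := mul_le_mul_of_nonneg_left a2 hμ.le
      simp only [F_Kkt, ← sub_sub] at a1
      linarith
  refine ⟨fun t => if t ∈ s then g t - e t - h t else 0, e, fun t => if t ∈ s then h t else 0,
    fun t ht => if_neg ht, fun t ht => if_neg ht, fun t ht => by simp only [if_pos ht]; ring, ?_, fun d => ?_,
    fun t ht => ?_⟩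
  · refine le_of_eq_of_le ?_ h1
    exact congrArg₂ _ (congrArg₂ _ (sum_congr rfl fun t ht => by simp only [if_pos ht]) rfl)
      (congrArg _ (sum_congr rfl fun t ht => by simp only [if_pos ht]))
  · exact (sum_congr rfl fun t ht => by simp only [if_pos ht]).trans_le (k1 d)
  · have := k2 (Pi.single t (g t - e t - h t))
    rw [sum_eq_single_of_mem t ht fun a _ ha => by rw [Pi.single_eq_of_ne ha, mul_zero],
      sum_eq_single_of_mem t ht fun a _ ha => by rw [Pi.single_eq_of_ne ha, abs_zero],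
      Pi.single_eq_same, ← abs_mul_abs_self] at this
    simp only [if_pos ht]
    by_contra hc
    nlinarith [not_le.1 hc]

end Pool.Agent.MP_2a1f0e_nt.GM3
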