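import Pool.Agent.MP_2a1f0e_nt.GM3.Defs
import Pool.Agent.MP_2a1f0e_nt.GM2.KKb
import Pool.Agent.MP_2a1f0e_nt.GM2.Far

set_option autoImplicit false

open Finset

namespace Pool.Agent.MP_2a1f0e_nt.GM3

open GM GM2

lemma key_Near3 {C C' s : ℝ} (hC' : 2 * C ≤ C') (hs : 1 ≤ s) {M : ℕ} {u : ℤ} (n : ℕ)
    (h : ∀ z : ℝ, 1 ≤ z → 1 + |(u : ℝ)| ≤ z ^ 20 → ‖KK M (u : ℝ)‖ ≤ C * (M * kp u + z ^ 11))
    (hu : |(u : ℝ)| < s ^ (20 * n)) (hP : ¬ Pk C' M u) :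
    ‖KK M (u : ℝ)‖ ≤ 4096 * C * s ^ (11 * n) := by
  have h1 : 1 ≤ s ^ n := one_le_pow₀ hs
  have h2 : 1 ≤ s ^ (20 * n) := one_le_pow₀ hs
  have h3 := h (2 * s ^ n) (by linarith) (by
    rw [mul_pow, ← pow_mul, mul_comm n]
    norm_num
    linarith)
  rw [mul_pow, ← pow_mul, mul_comm n] at h3
  have hk : 0 ≤ M * kp u := mul_nonneg (Nat.cast_nonneg M) (kp_pos _).le
  have h4 := mul_le_mul_of_nonneg_right hC' hk
  rw [Pk, not_le] at hP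
  generalize s ^ (11 * n) = t at h3 ⊢
  norm_num at h3
  nlinarith

theorem near3_stmt (hO : OscStmt) (hK : KKStmt) : Near3Stmt := by
  obtain ⟨C, hC, h⟩ := hO
  obtain ⟨_, -, hk⟩ := hK
  have c1 : C ≤ C ^ 2 := le_self_pow₀ hC two_ne_zero
  refine ⟨4096 ^ 2 * C ^ 2, by nlinarith, fun y hy M₁ M₂ m1 n1 m2 n2 ρ₁ ρ₂ hlt => ?_⟩
  obtain ⟨s, hs, rfl⟩ : ∃ s : ℝ, 1 ≤ s ∧ y = s ^ 10 :=
    ⟨y ^ ((10 : ℕ) : ℝ)⁻¹, Real.one_le_rpow hy (by positivity),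
      (Real.rpow_inv_natCast_pow (by linarith) (by norm_num)).symm⟩
  simp only [← pow_mul] at n1 n2 hlt ⊢
  have c2 : 2 * C ≤ 4096 ^ 2 * C ^ 2 := by nlinarith
  have k1 : ∀ n, |(ρ₁ : ℝ)| < s ^ (20 * n) → ¬ Pk (4096 ^ 2 * C ^ 2) M₁ (-(ρ₁ : ℝ)) →
      ‖KK M₁ (-(ρ₁ : ℝ))‖ ≤ 4096 * C * s ^ (11 * n) := fun n hu hP => by
    have := key_Near3 c2 hs n (h M₁ m1 (-ρ₁)) (by rwa [Int.cast_neg, abs_neg])
      (by rwa [Int.cast_neg])
    rwa [Int.cast_neg] at this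
  have k2 : ∀ n, |(ρ₂ : ℝ)| < s ^ (20 * n) → ¬ Pk (4096 ^ 2 * C ^ 2) M₂ ρ₂ →
      ‖KK M₂ ρ₂‖ ≤ 4096 * C * s ^ (11 * n) := fun n => key_Near3 c2 hs n (h M₂ m2 ρ₂)
  have t1 : ‖KK M₁ (-(ρ₁ : ℝ))‖ ≤ 3 * s ^ (10 * 30) := by linarith [(hk M₁ m1 (-(ρ₁ : ℝ))).2]
  have t2 : ‖KK M₂ ρ₂‖ ≤ 3 * s ^ (10 * 30) := by linarith [(hk M₂ m2 ρ₂).2]
  have s0 : 0 < s := by linarith
  have e1 : s ^ (11 * 22) * s ^ (11 * 22) ≤ s ^ (10 * 49) := by
    rw [← pow_add]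
    exact pow_le_pow_right₀ hs (by norm_num)
  have e2 : s ^ (10 * 30) * s ^ (11 * 15) ≤ s ^ (10 * 49) := by
    rw [← pow_add]
    exact pow_le_pow_right₀ hs (by norm_num)
  have e3 : 3 * s ^ (10 * 30) * (4096 * C * s ^ (11 * 15)) ≤ 4096 ^ 2 * C ^ 2 * s ^ (10 * 49) :=
    calc _ = 3 * 4096 * C * (s ^ (10 * 30) * s ^ (11 * 15)) := by
          generalize s ^ (10 * 30) = a
          generalize s ^ (11 * 15) = b
          ring
      _ ≤ _ := mul_le_mul (by nlinarith) e2 (by positivity) (by positivity)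
  by_contra hn
  simp only [not_or, not_le, max_lt_iff, not_and] at hn
  obtain ⟨h1, h2, h3, h4, h5⟩ := hn
  refine absurd hlt (not_lt.2 ?_)
  by_cases p1 : Pk (4096 ^ 2 * C ^ 2) M₁ (-(ρ₁ : ℝ))
  · exact (mul_le_mul t1 (k2 15 (h2 p1) (h1 p1)) (norm_nonneg _) (by positivity)).trans e3
  by_cases p2 : Pk (4096 ^ 2 * C ^ 2) M₂ ρ₂
  · rw [mul_comm]
    exact (mul_le_mul t2 (k1 15 (not_le.1 fun h => h3 h p2) p1) (norm_nonneg _)
      (by positivity)).trans e3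
  · refine (mul_le_mul (k1 22 h4 p1) (k2 22 h5 p2) (norm_nonneg _) (by positivity)).trans ?_
    calc _ = 4096 ^ 2 * C ^ 2 * (s ^ (11 * 22) * s ^ (11 * 22)) := by
          generalize s ^ (11 * 22) = a
          ring
      _ ≤ _ := mul_le_mul_of_nonneg_left e1 (by positivity)

theorem mid3_stmt (hM : MomStmt) : Mid3Stmt := by
  obtain ⟨C, hC, h⟩ := hM
  refine ⟨24 * C, by positivity, fun y Δ M R X hy m1 m2 hR hX hD => ?_⟩
  simp only [neg_KKb, and_self]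
  have hΔ : 0 ≤ Δ := zero_le_one.trans hD.1
  have hy0 : 0 < y := by linarith
  have h30 : y ^ 30 ≤ y ^ 180 := pow_le_pow_right₀ hy (by norm_num)
  have p30 := pow_pos hy0 30
  have hc : ∀ ρ : ℤ, ((ρ.natAbs : ℕ) : ℝ) = |(ρ : ℝ)| := fun ρ => by
    rw [Nat.cast_natAbs, Int.cast_abs]
  have hm : ∀ ρ ∈ Io R, ρ.natAbs ≤ R := fun ρ hρ => by
    rw [mem_Io] at hρ
    omega
  have hRX : R ≤ X := by
    have : (R : ℝ) ≤ X := by linarith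
    exact_mod_cast this
  have hMX : (3 * M) ^ 1 ≤ X := by
    have : ((3 * M : ℕ) : ℝ) ≤ X := by push_cast; linarith
    rw [pow_one]
    exact_mod_cast this
  have mom : ∀ P : ℕ, ∑ ρ ∈ Icc (-(P : ℤ)) P, ‖KK M ρ‖ ^ 2 ≤
      C * Δ ^ 6 * ((P + 3 * M) * (3 * M)) := fun P => by
    simp only [KK_eq_Far m1]
    have := h 1 (3 * M) P X Δ ((Icc 1 (3 * M)).filter (fun n => 3 * M ≤ 4 * n))
      (fun n => (Wt ((n : ℝ) / M) : ℂ)) le_rfl (by omega) (fun n _ => by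
        rw [Complex.norm_real, Real.norm_of_nonneg (Wt_nonneg _)]
        exact Wt_le_one _) (fun n hn => by
        rw [mem_filter, mem_Icc] at hn
        exact ⟨hn.1.1, hn.1.2, hn.2⟩) hMX hD
    rwa [mul_one, pow_one, Nat.cast_mul, Nat.cast_ofNat] at this
  rw [← sum_filter, ← sum_fiberwise_of_maps_to (t := range (Nat.log 2 X + 1))
    (g := fun ρ : ℤ => Nat.log 2 ρ.natAbs) fun p hp =>
      mem_range.2 (Nat.lt_succ_of_le (Nat.log_mono_right ((hm p (mem_filter.1 hp).1).trans hRX)))]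
  refine (sum_le_card_nsmul _ _ (24 * C * Δ ^ 6 * y ^ 30) fun j _ => ?_).trans ?_
  swap
  · rw [card_range, nsmul_eq_mul, Nat.cast_succ]
    refine (mul_le_mul_of_nonneg_right (DivB_log hD le_rfl) (by positivity)).trans_eq ?_
    generalize y ^ 30 = a
    ring
  set F := ((Io R).filter fun ρ : ℤ => y ^ 30 ≤ |(ρ : ℝ)|).filter
      fun ρ : ℤ => Nat.log 2 ρ.natAbs = j with hF
  have key : ∀ ρ ∈ F, y ^ 30 ≤ |(ρ : ℝ)| ∧ 2 ^ j ≤ ρ.natAbs ∧ ρ.natAbs < 2 * 2 ^ j :=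
    fun ρ hρ => by
      rw [hF, mem_filter, mem_filter] at hρ
      obtain ⟨⟨-, p3⟩, rfl⟩ := hρ
      refine ⟨p3, Nat.pow_log_le_self 2 fun e => ?_, ?_⟩
      · rw [← hc, e, Nat.cast_zero] at p3
        exact absurd p30 (not_lt.2 p3)
      · rw [← pow_succ']
        exact Nat.lt_pow_succ_log_self (by norm_num) _
  rcases F.eq_empty_or_nonempty with e | ⟨p₀, hp₀⟩
  · rw [e, sum_empty]
    positivity
  obtain ⟨q1, -, q3⟩ := key p₀ hp₀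
  set P : ℝ := ((2 ^ j : ℕ) : ℝ) with hP
  have P0 : 0 < P := by positivity
  have q4 : y ^ 30 ≤ 2 * P := by
    rw [← hc] at q1
    exact q1.trans (by rw [hP]; exact_mod_cast q3.le)
  have hA := mom (2 * 2 ^ j)
  rw [Nat.cast_mul (α := ℝ), Nat.cast_ofNat, ← hP] at hA
  calc _ ≤ ∑ ρ ∈ F, ‖KK M ρ‖ ^ 2 / P := sum_le_sum fun ρ hρ => by
        have : P ≤ |(ρ : ℝ)| := by
          rw [← hc, hP]
          exact_mod_cast (key ρ hρ).2.1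
        gcongr
        linarith
    _ ≤ ∑ ρ ∈ Icc (-((2 * 2 ^ j : ℕ) : ℤ)) (2 * 2 ^ j : ℕ), ‖KK M ρ‖ ^ 2 / P :=
        sum_le_sum_of_subset_of_nonneg (fun ρ hρ => by
          have := (key ρ hρ).2.2
          rw [mem_Icc]
          omega) fun _ _ _ => by positivity
    _ ≤ C * Δ ^ 6 * ((2 * P + 3 * M) * (3 * M)) / P := by
        rw [← sum_div]
        gcongr
    _ ≤ C * Δ ^ 6 * ((8 * P) * (3 * y ^ 30)) / P := by
        gcongr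
        linarith
    _ = _ := by
        generalize y ^ 30 = a
        field_simp
        ring

end Pool.Agent.MP_2a1f0e_nt.GM3
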