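import Pool.Agent.MP_2a1f0e_nt.GM3.Defs
import Pool.Agent.MP_2a1f0e_nt.GM.KOne
import Pool.Agent.MP_2a1f0e_nt.GM2.KKb

set_option autoImplicit false

open Finset

namespace Pool.Agent.MP_2a1f0e_nt.GM3

open GM GM2

theorem ksup_stmt (h2 : TwoStmt) (hR : RhoStmt) : KsupStmt := by
  obtain ⟨C, hC, h2⟩ := h2
  obtain ⟨C', hC', hR⟩ := hR
  refine ⟨C * C', by positivity, fun N M hN u => ?_⟩
  have hN0 : (0 : ℝ) < N := by exact_mod_cast hN
  have h3 := h2 N M hN {u} fun _ => 1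
  have h4 : (fun v => ‖FT {u} (fun _ => 1) v‖ * rho N M v) = rho N M := funext fun v => by
    rw [FT, sum_singleton, Complex.ofReal_one, one_mul, norm_pw, one_mul]
  have h5 : DivB (N * M) (((N * M : ℕ) : ℝ) + 1) := ⟨by
    have := Nat.cast_nonneg (α := ℝ) (N * M)
    linarith, fun n hn => by
      have h6 : (n.divisors.card : ℝ) ≤ ((N * M : ℕ) : ℝ) := by
        exact_mod_cast (Nat.card_divisors_le_self n).trans hn
      linarith⟩
  rw [sum_singleton, one_mul, h4] at h3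
  refine h3.trans ((mul_le_mul_of_nonneg_left (hR N M _ hN h5).1 (by positivity)).trans_eq ?_)
  field_simp

lemma pt_Osc {M r z : ℝ} {m : ℤ} (hM : 1 ≤ M) (hz : 1 ≤ z) (hr0 : 0 ≤ r) (hr : r ≤ z ^ 20)
    (hm0 : m ≠ 0) (hm : z ^ 22 ≤ |(m : ℝ)| * M) : M * (r / |(m : ℝ) * M|) ^ 22 ≤ 2 * kp (m : ℝ) := by
  have hM0 : 0 < M := by linarith
  have z0 : 0 < z := by linarith
  have h1 : (1 : ℝ) ≤ |(m : ℝ)| := by exact_mod_cast Int.one_le_abs hm0
  rw [abs_mul, abs_of_pos hM0, kp, ← sq_abs (m : ℝ)]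
  generalize |(m : ℝ)| = a at h1 hm
  have ha : 0 < a * M := by positivity
  have h2 : r / (a * M) * (a * M) ≤ z ^ 20 := by rwa [div_mul_cancel₀ _ ha.ne']
  have h3 : r / (a * M) * z ^ 2 ≤ 1 := by
    rw [div_mul_eq_mul_div, div_le_one ha]
    calc r * z ^ 2 ≤ z ^ 20 * z ^ 2 := by gcongr
      _ = z ^ 22 := by ring
      _ ≤ _ := hm
  have h0 : 0 ≤ r / (a * M) := by positivity
  generalize r / (a * M) = x at h0 h2 h3
  have h4 : (x * z ^ 2) ^ 20 ≤ 1 := pow_le_one₀ (by positivity) h3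
  have h5 : (x * (a * M)) ^ 2 ≤ (z ^ 20) ^ 2 := pow_le_pow_left₀ (by positivity) h2 2
  have h6 : x ^ 22 * (a * M) ^ 2 * z ^ 40 ≤ 1 * z ^ 40 :=
    calc x ^ 22 * (a * M) ^ 2 * z ^ 40 = (x * z ^ 2) ^ 20 * (x * (a * M)) ^ 2 := by ring
      _ ≤ 1 * (z ^ 20) ^ 2 := mul_le_mul h4 h5 (by positivity) zero_le_one
      _ = 1 * z ^ 40 := by ring
  have h7 : x ^ 22 * (a * M) ^ 2 ≤ 1 := le_of_mul_le_mul_right h6 (by positivity)
  have h8 : 0 ≤ x ^ 22 := by positivity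
  rw [mul_one_div, le_div_iff₀ (by positivity)]
  generalize x ^ 22 = y at h7 h8
  have h9 : 1 ≤ a ^ 2 := one_le_pow₀ h1
  calc M * y * (1 + a ^ 2) ≤ M * M * y * (2 * a ^ 2) := by
        refine mul_le_mul (mul_le_mul_of_nonneg_right ?_ h8) (by linarith) (by positivity)
          (by positivity)
        exact le_mul_of_one_le_right hM0.le hM
    _ = 2 * (y * (a * M) ^ 2) := by ring
    _ ≤ 2 := by linarith

theorem osc_stmt (hD : DecayStmt) (hZ : ZeroStmt) (hP : PoisStmt) (hK : KsupStmt) : OscStmt := by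
  obtain ⟨C, hC, hd⟩ := hD 22
  obtain ⟨C0, hC0, hz⟩ := hZ
  obtain ⟨CK, hCK, hK⟩ := hK
  refine ⟨C0 + 12 * C + CK + 1, by linarith, fun M hM u z hz1 hu => ?_⟩
  have hM1 : (1 : ℝ) ≤ M := by exact_mod_cast hM
  have hM0 : (0 : ℝ) < M := by linarith
  have hk : 0 ≤ M * kp (u : ℝ) := mul_nonneg hM0.le (kp_pos _).le
  have hn : ∀ ξ : ℝ, ‖(M : ℂ) * pw (M : ℝ) u * HH u ξ‖ = M * ‖HH u ξ‖ := fun ξ => by
    rw [norm_mul, norm_mul, norm_pw, mul_one, Complex.norm_natCast]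
  have z11 : 1 ≤ z ^ 11 := one_le_pow₀ hz1
  have hq : 0 ≤ z ^ 22 / M := by positivity
  have key := tail_KOne (hP M hM u) (Ms ⌊z ^ 22 / M⌋₊) (A := C0 * (M * kp (u : ℝ))) (B := C * 2)
    (by positivity) (by positivity)
    (by
      rw [hn, Int.cast_zero, zero_mul, mul_left_comm]
      exact mul_le_mul_of_nonneg_left (hz _) hM0.le)
    fun m hm0 hm => by
      have h1 : ((⌊z ^ 22 / M⌋₊ : ℕ) : ℝ) + 1 ≤ |(m : ℝ)| := by
        have h1 : ((⌊z ^ 22 / M⌋₊ : ℕ) : ℤ) + 1 ≤ |m| := by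
          rw [mem_Ms] at hm
          rw [le_abs]
          omega
        exact_mod_cast h1
      have h2 : z ^ 22 ≤ |(m : ℝ)| * M :=
        (div_le_iff₀ hM0).1 ((Nat.lt_floor_add_one _).le.trans h1)
      rw [hn]
      refine (mul_le_mul_of_nonneg_left
        (hd _ _ (mul_ne_zero (Int.cast_ne_zero.2 hm0) hM0.ne')) hM0.le).trans ?_
      rw [mul_left_comm, mul_assoc C]
      exact mul_le_mul_of_nonneg_left (pt_Osc hM1 hz1 (by positivity) hu hm0 h2) hC.le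
  rw [← mul_sum] at key
  have h3 : ‖Kb M ⌊z ^ 22 / M⌋₊ (u : ℝ)‖ ≤ (CK + 1) * z ^ 11 := by
    refine (pow_le_pow_iff_left₀ (norm_nonneg _) (by positivity) two_ne_zero).1
      ((hK M _ hM u).trans ?_)
    have h6 : (M : ℝ) * (⌊z ^ 22 / M⌋₊ : ℕ) ≤ z ^ 22 := by
      rw [mul_comm]
      exact (le_div_iff₀ hM0).1 (Nat.floor_le hq)
    calc CK * ((M : ℝ) * (⌊z ^ 22 / M⌋₊ : ℕ)) ≤ (CK + 1) ^ 2 * z ^ 22 :=
          mul_le_mul (by nlinarith) h6 (by positivity) (by positivity)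
      _ = _ := by ring
  have h4 := norm_le_insert' (KK M (u : ℝ)) (Kb M ⌊z ^ 22 / M⌋₊ (u : ℝ))
  have h5 : ‖KK M (u : ℝ) - Kb M ⌊z ^ 22 / M⌋₊ (u : ℝ)‖ ≤ C0 * (M * kp (u : ℝ)) + 6 * (C * 2) := key
  nlinarith [mul_nonneg hC.le hk, mul_nonneg hCK.le hk, mul_le_mul_of_nonneg_left z11 hC.le,
    mul_le_mul_of_nonneg_left z11 hC0.le]

end Pool.Agent.MP_2a1f0e_nt.GM3
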