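import Pool.Agent.MP_2a1f0e_nt.GM3.Defs
import Pool.Agent.MP_2a1f0e_nt.GM2.QTwo

set_option autoImplicit false

open Finset

namespace Pool.Agent.MP_2a1f0e_nt.GM3

open GM GM2

lemma one_Q4 {M Δ y : ℝ} (hM0 : 0 ≤ M) (hM : M ≤ y ^ 30) (hy : 1 ≤ y) (hΔ : 1 ≤ Δ) :
    M ^ 2 / y ^ 3 ≤ Δ ^ 10 * y ^ 57 := by
  rw [div_le_iff₀ (by positivity), mul_assoc, ← pow_add]
  refine (pow_le_pow_left₀ hM0 hM 2).trans ?_
  rw [← pow_mul]
  exact le_mul_of_one_le_left (by positivity) (one_le_pow₀ hΔ)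

lemma two_Q4 {M Δ y : ℝ} (hM0 : 0 ≤ M) (hM : M ≤ y ^ 30) (hy : 1 ≤ y) (hΔ : 1 ≤ Δ) {i j : ℕ}
    (hi : i ≤ 10) (hj : j ≤ 27) : Δ ^ i * (M * y ^ j) ≤ Δ ^ 10 * y ^ 57 := by
  refine mul_le_mul (pow_le_pow_right₀ hΔ hi)
    ((mul_le_mul_of_nonneg_right hM (by positivity)).trans ?_) (by positivity) (by positivity)
  rw [← pow_add]
  exact pow_le_pow_right₀ hy (by omega)

lemma sqrt_Q4 {C k y r : ℝ} (hC : C ≤ k) (hk : 1 ≤ k) (hy : 1 ≤ y) (hr : 0 ≤ r) :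
    √(C * (r / y ^ 3) * (k * (y ^ 3 * r) + y ^ 18 * r)) ≤ 2 * k * y ^ 8 * r := by
  have y0 : 0 < y := by linarith
  refine Real.sqrt_le_iff.2 ⟨by positivity, ?_⟩
  have e : C * (r / y ^ 3) * (k * (y ^ 3 * r) + y ^ 18 * r) = C * (k + y ^ 15) * r ^ 2 := by
    field_simp
  have h1 : k ≤ k * y ^ 16 := le_mul_of_one_le_right (by linarith) (one_le_pow₀ hy)
  have h2 : y ^ 15 ≤ k * y ^ 16 :=
    (pow_le_pow_right₀ hy (by norm_num)).trans (le_mul_of_one_le_left (by positivity) hk)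
  have h3 : C * (k + y ^ 15) ≤ k * (4 * (k * y ^ 16)) :=
    mul_le_mul hC (by linarith) (by positivity) (by linarith)
  rw [e]
  exact (mul_le_mul_of_nonneg_right h3 (sq_nonneg r)).trans_eq (by ring)

lemma err_Q4 {N M Δ y r X C E₀ : ℝ} (hM0 : 0 ≤ M) (hM : M ≤ y ^ 30) (hy : 1 ≤ y) (hΔ : 1 ≤ Δ)
    (hr : 0 ≤ r) (hX : r * r = X) (hC : 1 ≤ C) (hE : 1 ≤ E₀) :
    N ^ 2 * (M ^ 2 * (C * (r / y ^ 3)) * X +
      M * Δ * √(C * (r / y ^ 3) * (3 * C * Δ * (y ^ 3 * r) + y ^ 18 * r)) *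
        (3 * C * Δ * (y ^ 3 * r)) * r) + (N ^ 2 * M * Δ + E₀ * N * (N * M)) * (y ^ 18 * r) * X ≤
      (C + 18 * C ^ 2 + 2) * (E₀ * N ^ 2 * (Δ ^ 10 * y ^ 57 * (X * r))) := by
  have y0 : 0 < y := by linarith
  have d0 : 0 < Δ := by linarith
  have c0 : 0 < C := by linarith
  have x0 : 0 ≤ X * r := by rw [← hX]; positivity
  have hk : C ≤ 3 * C * Δ := by nlinarith
  have b1 : M ^ 2 * (C * (r / y ^ 3)) * X ≤ C * (Δ ^ 10 * y ^ 57 * (X * r)) := by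
    have := one_Q4 hM0 hM hy hΔ
    calc _ = C * (M ^ 2 / y ^ 3 * (X * r)) := by ring
      _ ≤ _ := by gcongr
  have b2 : M * Δ * √(C * (r / y ^ 3) * (3 * C * Δ * (y ^ 3 * r) + y ^ 18 * r)) *
      (3 * C * Δ * (y ^ 3 * r)) * r ≤ 18 * C ^ 2 * (Δ ^ 10 * y ^ 57 * (X * r)) := by
    have h1 := sqrt_Q4 hk (hC.trans hk) hy hr
    have h2 := two_Q4 hM0 hM hy hΔ (i := 3) (j := 11) (by norm_num) (by norm_num)
    calc _ ≤ M * Δ * (2 * (3 * C * Δ) * y ^ 8 * r) * (3 * C * Δ * (y ^ 3 * r)) * r := by gcongr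
      _ = 18 * C ^ 2 * (Δ ^ 3 * (M * y ^ 11) * (X * r)) := by rw [← hX]; ring
      _ ≤ _ := by gcongr
  have b3 : (N ^ 2 * M * Δ + E₀ * N * (N * M)) * (y ^ 18 * r) * X ≤
      2 * (E₀ * N ^ 2 * (Δ ^ 10 * y ^ 57 * (X * r))) := by
    have h1 := two_Q4 hM0 hM hy hΔ (i := 1) (j := 18) (by norm_num) (by norm_num)
    have h2 : Δ + E₀ ≤ 2 * (E₀ * Δ) := by nlinarith
    calc _ = (Δ + E₀) * (N ^ 2 * (M * y ^ 18) * (X * r)) := by ring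
      _ ≤ 2 * (E₀ * Δ) * (N ^ 2 * (M * y ^ 18) * (X * r)) := by gcongr
      _ = 2 * (E₀ * N ^ 2 * (Δ ^ 1 * (M * y ^ 18) * (X * r))) := by ring
      _ ≤ _ := by gcongr
  have b4 := mul_le_mul_of_nonneg_left (add_le_add b1 b2) (sq_nonneg N)
  have b5 : N ^ 2 * (C * (Δ ^ 10 * y ^ 57 * (X * r)) + 18 * C ^ 2 * (Δ ^ 10 * y ^ 57 * (X * r))) ≤
      (C + 18 * C ^ 2) * (E₀ * N ^ 2 * (Δ ^ 10 * y ^ 57 * (X * r))) := by
    calc _ = (C + 18 * C ^ 2) * (1 * N ^ 2 * (Δ ^ 10 * y ^ 57 * (X * r))) := by ring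
      _ ≤ _ := by gcongr
  linarith

theorem q4_stmt (hD : DecStmt) (hE : ErrStmt) (hD3 : Dec3Stmt) (hE3 : Err3Stmt) (hP : PartStmt)
    (hB : Blk3Stmt) : Q4Stmt := by
  obtain ⟨CD, hCD, hD⟩ := hD
  obtain ⟨CE, hCE, hE⟩ := hE
  obtain ⟨C3, hC3, hD3⟩ := hD3
  obtain ⟨CF, hCF, hE3⟩ := hE3
  obtain ⟨CB, hCB, hB⟩ := hB
  have hC0 : 0 < C3 := by linarith
  refine ⟨CE * (CD + 3) + CF * (C3 + 18 * C3 ^ 2 + 2) + 216 * CB * C3 ^ 3, by positivity, ?_⟩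
  intro N M T Xd Δ B X x E₀ ν hN hM hT hx hMx hTx hNM hXd hΔ hB0 hE0 hHE hν hX
  have hX0 : 0 ≤ X := (sum_nonneg fun t _ => sq_nonneg _).trans hX
  have hΔ1 := hΔ.1
  have hΔ0 : 0 ≤ Δ := by linarith
  have hx0 : 0 < x := by linarith
  have hE1 : 0 < E₀ := by linarith
  have hN0 : (0 : ℝ) < N := by exact_mod_cast hN
  have hR : 0 ≤ R2 N M Δ := by unfold R2; positivity
  have p1 : 0 ≤ Δ ^ 10 * x ^ 57 * (X * √X) := by positivity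
  have p2 : 0 ≤ M * Δ * B * X := by positivity
  have p3 : 0 ≤ (M : ℝ) ^ 3 * B * X / N := by positivity
  have p4 : 0 ≤ M * Δ * B * √(R2 N M Δ) * (B + x ^ 3 * √X) * √X := by positivity
  have p5 : 0 ≤ (M : ℝ) ^ 2 * Δ * B ^ 3 * R2 N M Δ := by positivity
  rcases hX0.eq_or_lt with rfl | hXp
  · have h0 : Q3 N M (Io (2 * T)) ν = 0 := by
      refine sum_eq_zero fun a ha => sum_eq_zero fun b _ => sum_eq_zero fun c _ => ?_
      have h1 : ν a = 0 := pow_eq_zero_iff two_ne_zero |>.1 (le_antisymm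
        ((single_le_sum (f := fun t => ν t ^ 2) (fun t _ => sq_nonneg _) ha).trans hX)
        (sq_nonneg _))
      simp [h1]
    rw [h0, norm_zero, W3]
    positivity
  have hr : 0 < √X := Real.sqrt_pos.2 hXp
  have hA : 0 < x ^ 3 * √X := by positivity
  have hXA : X / (x ^ 3 * √X) = √X / x ^ 3 := by
    rw [div_eq_div_iff hA.ne' (by positivity), mul_left_comm, Real.mul_self_sqrt hX0, mul_comm]
  have hXμ : X / (√X / x ^ 18) = x ^ 18 * √X := by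
    rw [div_div_eq_mul_div, div_eq_iff hr.ne', mul_assoc, Real.mul_self_sqrt hX0, mul_comm]
  have hsub : Io (2 * T) ⊆ Io (2 * (2 * T)) := fun t ht => by
    rw [mem_Io] at ht ⊢
    push_cast at ht ⊢
    omega
  set ν' : ℤ → ℝ := fun t => if t ∈ Io (2 * T) then ν t else 0 with hν'
  have e1 : ∑ t ∈ Io (2 * T), ν' t ^ 2 ≤ X :=
    (sum_cut_QTwo subset_rfl ν (fun y _ => y ^ 2) fun _ => by simp).trans_le hX
  have e2 : ∑ t ∈ Io (2 * (2 * T)), ν' t ^ 2 ≤ X :=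
    (sum_cut_QTwo hsub ν (fun y _ => y ^ 2) fun _ => by simp).trans_le hX
  have e3 : ∀ v, FT (Io (2 * (2 * T))) ν' v = FT (Io (2 * T)) ν v := fun v =>
    sum_cut_QTwo hsub ν (fun y t => (y : ℂ) * pw v (t : ℝ)) fun _ => by simp
  obtain ⟨g, -, g2, g3, -, g5⟩ :=
    hD (2 * T) ν' _ X (by omega) hA (fun t ht => if_neg ht) e1
  have hNM' : N * M ≤ Xd := (Nat.mul_le_mul_right M (by omega)).trans hNM
  have k1 := hE N M Δ B _ X _ _ ν' g hN hM (DivB_mono hΔ hNM') hB0 (by positivity)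
    (fun v hv => by rw [e3]; exact hν v hv) e2 g3 g2 g5
  rw [Q3_cut_QTwo N M hsub, hXA] at k1
  obtain ⟨f, h, f1, f2, f3, f4, f5, f6⟩ :=
    hD3 (2 * (2 * T)) g _ (√X / x ^ 18) X (by omega) hA (by positivity) g3
  rw [hXμ] at f5
  rw [hXA] at f6
  have hL : ((2 * (2 * T) : ℕ) : ℝ) ≤ 4 * x ^ 180 := by
    push_cast
    linarith
  have hlogL := DivB_log hΔ (Y := 2 * (2 * T)) (by
    have : 0 ≤ x ^ 180 := by positivity
    exact_mod_cast (by linarith : ((2 * (2 * T) : ℕ) : ℝ) ≤ Xd))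
  have hk3 : 3 ≤ 3 * C3 * Δ := by nlinarith
  have f7 : ∀ v, ‖FT (Io (2 * (2 * T))) f v‖ ≤ 3 * C3 * Δ * (x ^ 3 * √X) := fun v =>
    (f3 v).trans (mul_le_mul_of_nonneg_right (by nlinarith) hA.le)
  have g7 : ∀ v, ‖FT (Io (2 * (2 * T))) g v‖ ≤ 3 * C3 * Δ * (x ^ 3 * √X) := fun v =>
    (g2 v).trans (mul_le_mul_of_nonneg_right hk3 hA.le)
  have k0 := (hE3 N M Δ _ _ X _ _ _ g f h hN (DivB_mono hΔ hNM) (by positivity) hHE
    (by positivity) g3 f2 g7 f7 f6 f5).trans (mul_le_mul_of_nonneg_left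
      (err_Q4 (Nat.cast_nonneg M) hMx hx hΔ1 hr.le (Real.mul_self_sqrt hX0) hC3 hE0) hCF.le)
  have k2 := hP N M (Io (2 * (2 * T))) f
    (CB * ((3 * C3 * Δ) ^ 3 * Δ ^ 4 * x ^ 57 * (X * √X) / N)) (by positivity)
    fun M₁ M₂ M₃ S₁ S₂ S₃ e₁ e₂ e₃ d1 d2 d3 l1 l2 l3 s1 s2 s3 =>
      hB x Δ X _ e₁ e₂ e₃ N _ M₁ M₂ M₃ Xd S₁ S₂ S₃ f hx (by linarith) hN d1 d2 d3 l1 l2
        ((Nat.cast_le.2 l3).trans hMx) s1 s2 s3 hL hXd hΔ f1 f2 f4 f7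
  have hlog := DivB_log hΔ ((Nat.le_mul_of_pos_left M hN).trans hNM')
  have k3 : ‖Q3 N M (Io (2 * (2 * T))) f‖ ≤
      216 * CB * C3 ^ 3 * ((N : ℝ) ^ 2 * (Δ ^ 10 * x ^ 57 * (X * √X))) := by
    refine k2.trans (le_trans (mul_le_mul_of_nonneg_right (mul_le_mul_of_nonneg_right
      (mul_le_mul_of_nonneg_left (pow_le_pow_left₀ (by positivity) hlog 3) (by norm_num))
      (by positivity)) (by positivity)) (le_of_eq ?_))
    field_simp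
    ring
  have b1 : (M : ℝ) ^ 2 * (CD * (√X / x ^ 3)) * X ≤ CD * (Δ ^ 10 * x ^ 57 * (X * √X)) := by
    have h1 := one_Q4 (Nat.cast_nonneg M) hMx hx hΔ1
    calc _ = CD * ((M : ℝ) ^ 2 / x ^ 3 * (X * √X)) := by ring
      _ ≤ _ := by gcongr
  have b2 : M * Δ * (x ^ 3 * √X) * X ≤ Δ ^ 10 * x ^ 57 * (X * √X) := by
    have h1 := two_Q4 (Nat.cast_nonneg M) hMx hx hΔ1 (i := 1) (j := 3) (by norm_num) (by norm_num)
    calc _ = Δ ^ 1 * (M * x ^ 3) * (X * √X) := by ring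
      _ ≤ _ := by gcongr
  have b3 : M * Δ * B * √(R2 N M Δ) * (B + 3 * (x ^ 3 * √X)) * √X ≤
      3 * (M * Δ * B * √(R2 N M Δ) * (B + x ^ 3 * √X) * √X) := by
    calc _ ≤ M * Δ * B * √(R2 N M Δ) * (3 * (B + x ^ 3 * √X)) * √X := by
          gcongr
          linarith
      _ = _ := by ring
  have hW : Δ ^ 10 * x ^ 57 * (X * √X) ≤ W3 N M Δ B X x := by
    rw [W3]
    linarith
  have b4 : (M : ℝ) ^ 2 * (CD * (√X / x ^ 3)) * X + M * Δ * (B + 3 * (x ^ 3 * √X)) * X +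
      (M : ℝ) ^ 3 * B * X / N + M * Δ * B * √(R2 N M Δ) * (B + 3 * (x ^ 3 * √X)) * √X +
      (M : ℝ) ^ 2 * Δ * B ^ 3 * R2 N M Δ ≤ (CD + 3) * W3 N M Δ B X x := by
    have h1 := mul_le_mul_of_nonneg_left hW hCD.le
    have h2 : M * Δ * (B + 3 * (x ^ 3 * √X)) * X =
        M * Δ * B * X + 3 * (M * Δ * (x ^ 3 * √X) * X) := by ring
    rw [add_mul CD, h2]
    have h3 : W3 N M Δ B X x = Δ ^ 10 * x ^ 57 * (X * √X) + M * Δ * B * X +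
        (M : ℝ) ^ 3 * B * X / N + M * Δ * B * √(R2 N M Δ) * (B + x ^ 3 * √X) * √X +
        (M : ℝ) ^ 2 * Δ * B ^ 3 * R2 N M Δ := rfl
    linarith
  have k4 := k1.trans (mul_le_mul_of_nonneg_left b4 (by positivity))
  have k6 := norm_le_norm_sub_add (Q3 N M (Io (2 * T)) ν) (Q3 N M (Io (2 * (2 * T))) g)
  have k7 := norm_le_norm_sub_add (Q3 N M (Io (2 * (2 * T))) g) (Q3 N M (Io (2 * (2 * T))) f)
  have hW0 := p1.trans hW
  generalize W3 N M Δ B X x = W at *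
  generalize Δ ^ 10 * x ^ 57 * (X * √X) = P at *
  have c1 : CE * (N : ℝ) ^ 2 * ((CD + 3) * W) ≤ CE * (CD + 3) * (E₀ * (N : ℝ) ^ 2 * W) := by
    calc _ = CE * (CD + 3) * (1 * (N : ℝ) ^ 2 * W) := by ring
      _ ≤ _ := by gcongr
  have c2 : CF * ((C3 + 18 * C3 ^ 2 + 2) * (E₀ * (N : ℝ) ^ 2 * P)) ≤
      CF * ((C3 + 18 * C3 ^ 2 + 2) * (E₀ * (N : ℝ) ^ 2 * W)) := by gcongr
  have c3 : 216 * CB * C3 ^ 3 * ((N : ℝ) ^ 2 * P) ≤
      216 * CB * C3 ^ 3 * (E₀ * (N : ℝ) ^ 2 * W) := by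
    calc _ = 216 * CB * C3 ^ 3 * (1 * (N : ℝ) ^ 2 * P) := by ring
      _ ≤ _ := by gcongr
  linarith

end Pool.Agent.MP_2a1f0e_nt.GM3
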