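import Pool.Agent.MP_2a1f0e_nt.GM.Main
import Pool.Agent.MP_2a1f0e_nt.GM2.Bil
import Pool.Agent.MP_2a1f0e_nt.GM2.Core
import Pool.Agent.MP_2a1f0e_nt.GM2.CV
import Pool.Agent.MP_2a1f0e_nt.GM2.Dec
import Pool.Agent.MP_2a1f0e_nt.GM2.Err
import Pool.Agent.MP_2a1f0e_nt.GM2.Exp
import Pool.Agent.MP_2a1f0e_nt.GM2.Fou
import Pool.Agent.MP_2a1f0e_nt.GM2.Gam
import Pool.Agent.MP_2a1f0e_nt.GM2.GY
import Pool.Agent.MP_2a1f0e_nt.GM2.Key2
import Pool.Agent.MP_2a1f0e_nt.GM2.KKb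
import Pool.Agent.MP_2a1f0e_nt.GM2.Mom
import Pool.Agent.MP_2a1f0e_nt.GM2.Part
import Pool.Agent.MP_2a1f0e_nt.GM2.PFour
import Pool.Agent.MP_2a1f0e_nt.GM2.Psi
import Pool.Agent.MP_2a1f0e_nt.GM2.Red
import Pool.Agent.MP_2a1f0e_nt.GM2.Rexp
import Pool.Agent.MP_2a1f0e_nt.GM2.Shear
import Pool.Agent.MP_2a1f0e_nt.GM2.Three3
import Pool.Agent.MP_2a1f0e_nt.GM2.Tri2
import Pool.Agent.MP_2a1f0e_nt.GM2.VdcB
import Pool.Agent.MP_2a1f0e_nt.GM3.BB3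
import Pool.Agent.MP_2a1f0e_nt.GM3.BFour
import Pool.Agent.MP_2a1f0e_nt.GM3.Dec3
import Pool.Agent.MP_2a1f0e_nt.GM3.Dir
import Pool.Agent.MP_2a1f0e_nt.GM3.Err3
import Pool.Agent.MP_2a1f0e_nt.GM3.Far3
import Pool.Agent.MP_2a1f0e_nt.GM3.HOne
import Pool.Agent.MP_2a1f0e_nt.GM3.HSt
import Pool.Agent.MP_2a1f0e_nt.GM3.Int3
import Pool.Agent.MP_2a1f0e_nt.GM3.Kkt
import Pool.Agent.MP_2a1f0e_nt.GM3.Near3
import Pool.Agent.MP_2a1f0e_nt.GM3.Num3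
import Pool.Agent.MP_2a1f0e_nt.GM3.Osc
import Pool.Agent.MP_2a1f0e_nt.GM3.Q4
import Pool.Agent.MP_2a1f0e_nt.GM3.Seg3

set_option autoImplicit false

namespace Pool.Agent.MP_2a1f0e_nt.GM3

open GM GM2

theorem ksup_all : KsupStmt := ksup_stmt (two_stmt rad_stmt phMaj_stmt) rho_all

theorem kk_all3 : KKStmt := kk_stmt decay_stmt zero_stmt (pois_stmt decay_stmt)

theorem osc_all : OscStmt := osc_stmt decay_stmt zero_stmt (pois_stmt decay_stmt) ksup_all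

theorem h_all : HStmt := h_stmt (hOne_stmt fou_stmt bes_stmt div_stmt par_stmt) ksup_all

theorem bb3_all : BB3Stmt :=
  bb3_stmt bil_stmt (gl2_stmt cv_stmt) (gam_stmt vdc_all) kk_all3 (near3_stmt osc_all kk_all3)
    (mid3_stmt mom_stmt) (far3_stmt mom_stmt)

theorem blk3_all : Blk3Stmt :=
  blk3_stmt (red_stmt key2_stmt (rexp_stmt fou_stmt) psi_stmt) shear_stmt
    (seg3_stmt (core_stmt cv_stmt) exp_stmt bb3_all (gy_stmt p4_stmt) mom_stmt)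

theorem q4_all : Q4Stmt :=
  q4_stmt dec_stmt
    (err_stmt (three3_stmt rad_stmt) (tri2_stmt phMaj_stmt pair_all) rho_all par_stmt)
    (dec3_stmt kkt_stmt dir_stmt nOne_stmt)
    (err3_stmt (three3_stmt rad_stmt) (tri2_stmt phMaj_stmt pair_all) par_stmt h_all)
    part_stmt blk3_all

theorem b4_all : B4Stmt := b4_stmt setup_all hux_stmt cub_stmt q4_all pt_all num3_stmt b1_all

theorem int3_all : Int3Stmt := int3_stmt b4_all b2_all blk_stmt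

theorem final3_all : Final3Stmt := final3_stmt int3_all tay_stmt

end Pool.Agent.MP_2a1f0e_nt.GM3
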