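import Pool.Agent.MP_2a1f0e_nt.GM3.Defs
import Pool.Agent.MP_2a1f0e_nt.GM2.Num2
set_option autoImplicit false
open Finset
namespace Pool.Agent.MP_2a1f0e_nt.GM3
open GM GM2

theorem two_Num3 {W τ n x : ℝ} (hW : 1 ≤ W) (hn : 1 ≤ n) (hτ : 1 ≤ τ) (h : τ ^ 46 ≤ n ^ 28)
    (hx : 0 ≤ x) (hM : x ^ 30 * n ^ 2 ≤ W * τ ^ 4) : n * x ^ 57 ≤ W ^ 2 * τ ^ 3 := by
  refine le_of_pow_le_pow_left₀ (n := 10) (by norm_num) (by positivity)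
    (le_of_mul_le_mul_right ?_ (show 0 < n ^ 28 by positivity))
  calc _ = (x ^ 30 * n ^ 2) ^ 19 := by ring
    _ ≤ (W * τ ^ 4) ^ 19 := by gcongr
    _ = W ^ 19 * τ ^ 30 * τ ^ 46 := by ring
    _ ≤ W ^ 20 * τ ^ 30 * n ^ 28 := by gcongr; norm_num
    _ = _ := by ring

theorem three_Num3 {W τ n x : ℝ} (hW : 1 ≤ W) (hn : 1 ≤ n) (hτ : 1 ≤ τ) (h4 : τ ^ 4 ≤ n ^ 3)
    (hx : 0 ≤ x) (hM : x ^ 30 * n ^ 2 ≤ W * τ ^ 4) : τ ^ 2 * x ^ 3 ≤ W * n ^ 2 := by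
  refine le_of_pow_le_pow_left₀ (n := 10) (by norm_num) (by positivity)
    (le_of_mul_le_mul_right ?_ (show 0 < n ^ 2 by positivity))
  calc _ = x ^ 30 * n ^ 2 * τ ^ 20 := by ring
    _ ≤ W * τ ^ 4 * τ ^ 20 := by gcongr
    _ = W ^ 1 * (τ ^ 4) ^ 6 := by ring
    _ ≤ W ^ 10 * (n ^ 3) ^ 6 := by gcongr; norm_num
    _ = W ^ 10 * n ^ 18 := by ring
    _ ≤ W ^ 10 * n ^ 22 := by gcongr; norm_num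
    _ = _ := by ring

theorem core_Num3 {C P W τ n x y M Δ B s : ℝ} (hC : 1 ≤ C) (hP : P ≤ W) (hW : 1 ≤ W) (hn : 0 < n)
    (hτ : 0 < τ) (h1 : τ ≤ n) (h3 : τ ^ 3 ≤ n ^ 2) (h4 : τ ^ 4 ≤ n ^ 3) (hx : 0 ≤ x) (hy : 0 ≤ y)
    (hM0 : 0 ≤ M) (hM : M * n ^ 2 ≤ W * τ ^ 4) (hΔ0 : 0 ≤ Δ) (hΔ : Δ ≤ W) (hB0 : 0 ≤ B)
    (hB : B ≤ W * n ^ 4) (hs0 : 0 ≤ s) (hs : s * n ^ 2 ≤ 2 * W * τ ^ 2)
    (x1 : n * x ^ 57 ≤ W ^ 2 * τ ^ 3) (x2 : τ ^ 2 * x ^ 3 ≤ W * n ^ 2)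
    (h : y ^ 6 ≤ C * (n ^ 10 * (Δ ^ 10 * x ^ 57 * y ^ 3) + n ^ 10 * (M * Δ * B * y ^ 2) +
      n ^ 8 * (M ^ 3 * B * y ^ 2) + n ^ 10 * (M * Δ * B ^ 2 * s * y) +
      n ^ 10 * (M * Δ * B * s * x ^ 3 * y ^ 2) + n ^ 10 * (M ^ 2 * Δ * B ^ 3 * s ^ 2) +
      P * (τ * n ^ 3) ^ 4 * y ^ 2)) :
    y ≤ 12 * C * W ^ 4 * (τ * n ^ 3) := by
  have hz : 0 < τ * n ^ 3 := by positivity
  have q3 : 1 ≤ W ^ 4 := one_le_pow₀ hW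
  have hCW : 1 ≤ 12 * C := by linarith
  by_contra hc
  rw [not_le] at hc
  have hzy : τ * n ^ 3 ≤ y :=
    (le_mul_of_one_le_left hz.le (one_le_mul_of_one_le_of_one_le hCW q3)).trans hc.le
  have hy0 : 0 < y := hz.trans_le hzy
  have t0 : (τ * n ^ 3) ^ 4 * y ^ 2 ≤ (τ * n ^ 3) ^ 3 * y ^ 3 :=
    calc _ = (τ * n ^ 3) ^ 3 * ((τ * n ^ 3) * y ^ 2) := by ring
      _ ≤ (τ * n ^ 3) ^ 3 * (y * y ^ 2) := by gcongr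
      _ = _ := by ring
  have t1 : n ^ 10 * (Δ ^ 10 * x ^ 57 * y ^ 3) ≤ W ^ 12 * ((τ * n ^ 3) ^ 3 * y ^ 3) :=
    calc _ = Δ ^ 10 * (n * x ^ 57) * (n ^ 9 * y ^ 3) := by ring
      _ ≤ W ^ 10 * (W ^ 2 * τ ^ 3) * (n ^ 9 * y ^ 3) := by gcongr
      _ = _ := by ring
  have t2 : n ^ 10 * (M * Δ * B * y ^ 2) ≤ W ^ 12 * ((τ * n ^ 3) ^ 3 * y ^ 3) :=
    calc _ = n ^ 8 * (M * n ^ 2) * Δ * B * y ^ 2 := by ring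
      _ ≤ n ^ 8 * (W * τ ^ 4) * W * (W * n ^ 4) * y ^ 2 := by gcongr
      _ = W ^ 3 * ((τ * n ^ 3) ^ 4 * y ^ 2) := by ring
      _ ≤ _ := by gcongr; norm_num
  have t3 : n ^ 8 * (M ^ 3 * B * y ^ 2) ≤ W ^ 12 * ((τ * n ^ 3) ^ 3 * y ^ 3) :=
    calc _ = n ^ 2 * (M * n ^ 2) ^ 3 * B * y ^ 2 := by ring
      _ ≤ n ^ 2 * (W * τ ^ 4) ^ 3 * (W * n ^ 4) * y ^ 2 := by gcongr
      _ = W ^ 4 * ((τ ^ 4) ^ 2 * (τ ^ 4 * n ^ 6 * y ^ 2)) := by ring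
      _ ≤ W ^ 4 * ((n ^ 3) ^ 2 * (τ ^ 4 * n ^ 6 * y ^ 2)) := by gcongr
      _ = W ^ 4 * ((τ * n ^ 3) ^ 4 * y ^ 2) := by ring
      _ ≤ _ := by gcongr; norm_num
  have t4 : n ^ 10 * (M * Δ * B ^ 2 * s * y) ≤ 2 * W ^ 12 * ((τ * n ^ 3) ^ 3 * y ^ 3) :=
    calc _ = n ^ 6 * (M * n ^ 2) * Δ * B ^ 2 * (s * n ^ 2) * y := by ring
      _ ≤ n ^ 6 * (W * τ ^ 4) * W * (W * n ^ 4) ^ 2 * (2 * W * τ ^ 2) * y := by gcongr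
      _ = 2 * W ^ 5 * (τ * (τ ^ 5 * n ^ 14 * y)) := by ring
      _ ≤ 2 * W ^ 12 * (n * (τ ^ 5 * n ^ 14 * y)) := by gcongr; norm_num
      _ = 2 * W ^ 12 * ((τ * n ^ 3) ^ 3 * ((τ * n ^ 3) ^ 2 * y)) := by ring
      _ ≤ 2 * W ^ 12 * ((τ * n ^ 3) ^ 3 * (y ^ 2 * y)) := by gcongr
      _ = _ := by ring
  have t5 : n ^ 10 * (M * Δ * B * s * x ^ 3 * y ^ 2) ≤ 2 * W ^ 12 * ((τ * n ^ 3) ^ 3 * y ^ 3) :=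
    calc _ = n ^ 6 * (M * n ^ 2) * Δ * B * (s * n ^ 2) * x ^ 3 * y ^ 2 := by ring
      _ ≤ n ^ 6 * (W * τ ^ 4) * W * (W * n ^ 4) * (2 * W * τ ^ 2) * x ^ 3 * y ^ 2 := by gcongr
      _ = 2 * W ^ 4 * ((τ ^ 2 * x ^ 3) * (τ ^ 4 * n ^ 10 * y ^ 2)) := by ring
      _ ≤ 2 * W ^ 4 * ((W * n ^ 2) * (τ ^ 4 * n ^ 10 * y ^ 2)) := by gcongr
      _ = 2 * W ^ 5 * ((τ * n ^ 3) ^ 4 * y ^ 2) := by ring
      _ ≤ _ := by gcongr; norm_num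
  have t6 : n ^ 10 * (M ^ 2 * Δ * B ^ 3 * s ^ 2) ≤ 4 * W ^ 12 * ((τ * n ^ 3) ^ 3 * y ^ 3) :=
    calc _ = n ^ 2 * (M * n ^ 2) ^ 2 * Δ * B ^ 3 * (s * n ^ 2) ^ 2 := by ring
      _ ≤ n ^ 2 * (W * τ ^ 4) ^ 2 * W * (W * n ^ 4) ^ 3 * (2 * W * τ ^ 2) ^ 2 := by gcongr
      _ = 4 * W ^ 8 * ((τ ^ 3) ^ 2 * (τ ^ 6 * n ^ 14)) := by ring
      _ ≤ 4 * W ^ 12 * ((n ^ 2) ^ 2 * (τ ^ 6 * n ^ 14)) := by gcongr; norm_num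
      _ = 4 * W ^ 12 * ((τ * n ^ 3) ^ 3 * (τ * n ^ 3) ^ 3) := by ring
      _ ≤ _ := by gcongr
  have t7 : P * (τ * n ^ 3) ^ 4 * y ^ 2 ≤ W ^ 12 * ((τ * n ^ 3) ^ 3 * y ^ 3) := by
    rw [mul_assoc]
    gcongr
    exact hP.trans (le_self_pow₀ hW (by norm_num))
  have t8 : y ^ 3 * y ^ 3 ≤ (12 * C * W ^ 4 * (τ * n ^ 3)) ^ 3 * y ^ 3 :=
    calc _ = y ^ 6 := by ring
      _ ≤ _ := h
      _ ≤ C * (12 * W ^ 12 * ((τ * n ^ 3) ^ 3 * y ^ 3)) :=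
        mul_le_mul_of_nonneg_left (by linarith) (by linarith)
      _ = (12 * C) ^ 1 * (W ^ 12 * ((τ * n ^ 3) ^ 3 * y ^ 3)) := by ring
      _ ≤ (12 * C) ^ 3 * (W ^ 12 * ((τ * n ^ 3) ^ 3 * y ^ 3)) := by gcongr; norm_num
      _ = _ := by ring
  exact absurd (le_of_pow_le_pow_left₀ (by norm_num) (by positivity)
    (le_of_mul_le_mul_right t8 (by positivity))) (not_le.2 hc)

theorem num3_stmt : Num3Stmt := by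
  intro δ C hδ hC
  refine ⟨144 * C ^ 10, by positivity,
    fun N T M Δ B X x hN hT h5 hx exM hM hΔ1 hΔ hB0 hB hX h => ?_⟩
  have hN1 : (1 : ℝ) ≤ N := by exact_mod_cast hN
  have hT1 : (1 : ℝ) ≤ T := by exact_mod_cast hN.trans hT
  have h5' : (T : ℝ) ^ 23 ≤ (N : ℝ) ^ 28 := by exact_mod_cast h5
  have hP : 1 ≤ (N : ℝ) ^ δ := Real.one_le_rpow hN1 hδ.le
  have e6 : (N : ℝ) ^ (8 * δ) = ((N : ℝ) ^ δ) ^ 8 := by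
    rw [mul_comm, Real.rpow_mul (by linarith)]
    exact_mod_cast Real.rpow_natCast _ 8
  rw [e6]
  have hM0 : (0 : ℝ) ≤ M := Nat.cast_nonneg M
  unfold W3 R2 at h
  generalize (N : ℝ) ^ δ = P at *
  generalize (M : ℝ) = M at *
  obtain ⟨n, hn, en⟩ : ∃ n : ℝ, 1 ≤ n ∧ (N : ℝ) = n ^ 2 :=
    ⟨√N, Real.one_le_sqrt.2 hN1, (Real.sq_sqrt (by linarith)).symm⟩
  obtain ⟨τ, hτ, eT⟩ : ∃ τ : ℝ, 1 ≤ τ ∧ (T : ℝ) = (τ ^ 2) ^ 2 :=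
    ⟨√(√T), Real.one_le_sqrt.2 (Real.one_le_sqrt.2 hT1), by
      rw [Real.sq_sqrt (Real.sqrt_nonneg _), Real.sq_sqrt (by linarith)]⟩
  obtain ⟨y, hy, rfl⟩ : ∃ y : ℝ, 0 ≤ y ∧ X = y ^ 2 :=
    ⟨√X, Real.sqrt_nonneg _, (Real.sq_sqrt hX).symm⟩
  rw [en, eT] at h hM h5' ⊢
  rw [en] at hB
  rw [Real.sqrt_sq hy] at h
  rw [Real.sqrt_sq (by positivity)]
  have hW : 1 ≤ C * P := one_le_mul_of_one_le_of_one_le hC hP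
  have hPW : P ≤ C * P := le_mul_of_one_le_left (by linarith) hC
  have hn0 : 0 < n := by linarith
  have hτ0 : 0 < τ := by linarith
  have hx0 : 0 ≤ x := by linarith
  have h6 : τ ^ 46 ≤ n ^ 28 :=
    le_of_pow_le_pow_left₀ (n := 2) (by norm_num) (by positivity) (by
      rw [← pow_mul, ← pow_mul, ← pow_mul] at h5'
      rwa [← pow_mul, ← pow_mul])
  have h3 : τ ^ 3 ≤ n ^ 2 :=
    le_of_pow_le_pow_left₀ (n := 46) (by norm_num) (by positivity) (by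
      calc _ = (τ ^ 46) ^ 3 := by rw [← pow_mul, ← pow_mul]
        _ ≤ (n ^ 28) ^ 3 := by gcongr
        _ ≤ _ := by
          rw [← pow_mul, ← pow_mul]
          exact pow_le_pow_right₀ hn (by norm_num))
  have h1 : τ ≤ n := le_of_pow_le_pow_left₀ (n := 2) (by norm_num) hn0.le
    ((pow_le_pow_right₀ hτ (by norm_num)).trans h3)
  have h4 : τ ^ 4 ≤ n ^ 3 := by
    rw [pow_succ τ 3, pow_succ n 2]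
    gcongr
  have hM' : M * n ^ 2 ≤ C * P * τ ^ 4 := by
    rw [← mul_div_assoc, le_div_iff₀ (by positivity)] at hM
    exact hM.trans_eq (by ring)
  have hMx : x ^ 30 * n ^ 2 ≤ C * P * τ ^ 4 := exM ▸ hM'
  have hfin : 144 * C ^ 10 * P ^ 8 * (τ ^ 2 * (n ^ 2) ^ 3) =
      (12 * C * (C * P) ^ 4 * (τ * n ^ 3)) ^ 2 := by ring
  rw [hfin]
  have hs := sq_Num2 hW hn0 hτ0 h1 hM0 hM' (by linarith) hΔ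
  have hR : 0 ≤ M ^ 2 / (n ^ 2) ^ 2 + M * Δ / n ^ 2 := by positivity
  have hs2 := Real.sq_sqrt hR
  have hs0 := Real.sqrt_nonneg (M ^ 2 / (n ^ 2) ^ 2 + M * Δ / n ^ 2)
  generalize √(M ^ 2 / (n ^ 2) ^ 2 + M * Δ / n ^ 2) = s at h hs hs2 hs0
  rw [← hs2] at h
  refine pow_le_pow_left₀ hy (core_Num3 hC hPW hW hn0 hτ0 h1 h3 h4 hx0 hy hM0 hM' (by linarith)
    hΔ hB0 (hB.trans_eq (by ring)) hs0 hs (two_Num3 hW hn hτ h6 hx0 hMx)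
    (three_Num3 hW hn hτ h4 hx0 hMx) ?_) 2
  calc _ = (y ^ 2) ^ 3 := by ring
    _ ≤ _ := h
    _ = _ := by field_simp; ring

end Pool.Agent.MP_2a1f0e_nt.GM3
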